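import Pool.Agent.T2H62.MT.B

set_option autoImplicit false

/-! # Twins of random primes as independent events -/

namespace Pool.Agent.T2H62.MT

open Finset Filter Topology MeasureTheory ProbabilityTheory
open Pool.Agent.T2H62.MD
open Pool.Agent.T2H53.GW
open Pool.Agent.T2H62.MM (tlog)

variable {Ω : Type*} [MeasurableSpace Ω] {μ : Measure Ω} {S : ℕ → Set Ω}

/-- the twins `n`, `n + 2` with `n = 5` modulo `6` -/
def Tw (S : ℕ → Set Ω) (n : ℕ) : Set Ω := if n % 6 = 5 then S n ∩ S (n + 2) else ∅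

theorem Tw_meas (hm : ∀ n, MeasurableSet (S n)) (n : ℕ) : MeasurableSet (Tw S n) := by
  unfold Tw
  split_ifs
  · exact (hm n).inter (hm (n + 2))
  · exact MeasurableSet.empty

theorem pair_meas (hm : ∀ n, MeasurableSet (S n)) (hi : iIndepSet S μ) (n : ℕ) : μ (S n ∩ S (n + 2)) = μ (S n) * μ (S (n + 2)) := by
  classical
  have h1 := (iIndepSet_iff_meas_biInter hm).1 hi {n, n + 2}
  have h2 : (⋂ i ∈ ({n, n + 2} : Finset ℕ), S i) = S n ∩ S (n + 2) := by
    ext ω
    simp
  rw [h2, prod_pair (by omega)] at h1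
  exact h1

theorem Tw_indep (hm : ∀ n, MeasurableSet (S n)) (hi : iIndepSet S μ) : iIndepSet (Tw S) μ := by
  classical
  rw [iIndepSet_iff_meas_biInter (Tw_meas hm)]
  intro s
  by_cases h : ∀ n ∈ s, n % 6 = 5
  · have h1 : (⋂ n ∈ s, Tw S n) = ⋂ i ∈ s ∪ s.image (fun n => n + 2), S i := by
      ext ω
      simp only [Set.mem_iInter, mem_union, mem_image]
      constructor
      · rintro h2 i (h3 | ⟨n, h3, rfl⟩)
        · have := h2 i h3
          unfold Tw at this
          rw [if_pos (h i h3)] at this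
          exact this.1
        · have := h2 n h3
          unfold Tw at this
          rw [if_pos (h n h3)] at this
          exact this.2
      · intro h2 n hn
        unfold Tw
        rw [if_pos (h n hn)]
        exact ⟨h2 n (Or.inl hn), h2 (n + 2) (Or.inr ⟨n, hn, rfl⟩)⟩
    have h2 : Disjoint s (s.image (fun n => n + 2)) := by
      rw [Finset.disjoint_left]
      intro a ha hb
      rw [mem_image] at hb
      obtain ⟨n, hn, rfl⟩ := hb
      have h3 := h _ ha
      have h4 := h _ hn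
      omega
    rw [h1, (iIndepSet_iff_meas_biInter hm).1 hi, prod_union h2, prod_image (fun a _ b _ hab => by simpa using hab), ← prod_mul_distrib]
    refine prod_congr rfl fun n hn => ?_
    unfold Tw
    rw [if_pos (h n hn), pair_meas hm hi]
  · push Not at h
    obtain ⟨n, hn, h2⟩ := h
    have h3 : Tw S n = ∅ := by
      unfold Tw
      rw [if_neg h2]
    rw [prod_eq_zero hn (by rw [h3]; exact measure_empty)]
    have h4 : (⋂ i ∈ s, Tw S i) ⊆ Tw S n := Set.biInter_subset_of_mem hn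
    rw [h3] at h4
    rw [Set.subset_empty_iff.1 h4]
    exact measure_empty

theorem pr_zero (A : ℝ) (n p : ℕ) (hp : p.Prime) (h1 : (p : ℝ) ≤ A * Real.log n) (h2 : p ∣ n) : pr A n = 0 := by
  classical
  unfold pr
  rw [if_neg]
  intro h
  exact h p hp h1 h2

theorem pr_pair_zero {A : ℝ} (hA : 0 < A) : ∀ᶠ n : ℕ in atTop, n % 6 ≠ 5 → pr A n * pr A (n + 2) = 0 := by
  filter_upwards [tlog.eventually_ge_atTop (3 / A), eventually_ge_atTop 1] with n h1 h1' h2
  have hn0 : (0 : ℝ) < n := by exact_mod_cast h1'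
  have h3 : 3 ≤ A * Real.log n := by
    rw [div_le_iff₀ hA] at h1
    linarith
  have h4 : 3 ≤ A * Real.log ((n + 2 : ℕ) : ℝ) := by
    have : Real.log (n : ℝ) ≤ Real.log ((n + 2 : ℕ) : ℝ) := Real.log_le_log hn0 (by push_cast; linarith)
    have := mul_le_mul_of_nonneg_left this hA.le
    linarith
  have h5 : 2 ∣ n ∨ 3 ∣ n ∨ 3 ∣ n + 2 := by
    have h6 : n % 6 = 0 ∨ n % 6 = 1 ∨ n % 6 = 2 ∨ n % 6 = 3 ∨ n % 6 = 4 := by omega
    rcases h6 with h6 | h6 | h6 | h6 | h6
    · exact Or.inl (by omega)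
    · exact Or.inr (Or.inr (by omega))
    · exact Or.inl (by omega)
    · exact Or.inr (Or.inl (by omega))
    · exact Or.inl (by omega)
  rcases h5 with h5 | h5 | h5
  · rw [pr_zero A n 2 Nat.prime_two (by push_cast; linarith) h5, zero_mul]
  · rw [pr_zero A n 3 Nat.prime_three (by push_cast; linarith) h5, zero_mul]
  · rw [pr_zero A (n + 2) 3 Nat.prime_three (by push_cast at h4 ⊢; linarith) h5, mul_zero]

theorem Tw_prob {A : ℝ} (hA : 0 < A) (hm : ∀ n, MeasurableSet (S n)) (hi : iIndepSet S μ) (hp : ∀ n, μ.real (S n) = pr A n) :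
    ∀ᶠ n : ℕ in atTop, μ.real (Tw S n) = pr A n * pr A (n + 2) := by
  filter_upwards [pr_pair_zero hA] with n h1
  unfold Tw
  split_ifs with h2
  · rw [measureReal_def, pair_meas hm hi, ENNReal.toReal_mul, ← measureReal_def, ← measureReal_def, hp, hp]
  · rw [h1 h2]
    exact measureReal_empty

/-- almost surely, almost all twins are of this form -/
theorem Tw_ae [IsProbabilityMeasure μ] {A : ℝ} (hA : 0 < A) (hm : ∀ n, MeasurableSet (S n)) (hi : iIndepSet S μ) (hp : ∀ n, μ.real (S n) = pr A n) :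
    ∃ n₀ : ℕ, ∀ᵐ ω ∂μ, ∀ n : ℕ, n₀ ≤ n → (ω ∈ Tw S n ↔ ω ∈ S n ∧ ω ∈ S (n + 2)) := by
  obtain ⟨n₀, hn₀⟩ := eventually_atTop.1 (pr_pair_zero hA)
  refine ⟨n₀, ?_⟩
  rw [ae_all_iff]
  intro n
  by_cases h1 : n₀ ≤ n
  · by_cases h2 : n % 6 = 5
    · filter_upwards with ω _
      unfold Tw
      rw [if_pos h2]
      rfl
    · have h3 : μ (S n ∩ S (n + 2)) = 0 := by
        have h4 : μ.real (S n ∩ S (n + 2)) = 0 := by
          rw [measureReal_def, pair_meas hm hi, ENNReal.toReal_mul, ← measureReal_def, ← measureReal_def, hp, hp]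
          exact hn₀ n h1 h2
        exact (measureReal_eq_zero_iff).1 h4
      have h4 : ∀ᵐ ω ∂μ, ω ∉ S n ∩ S (n + 2) := measure_eq_zero_iff_ae_notMem.1 h3
      filter_upwards [h4] with ω hω _
      unfold Tw
      rw [if_neg h2]
      constructor
      · intro h5
        exact absurd h5 (Set.notMem_empty ω)
      · intro h5
        exact absurd ⟨h5.1, h5.2⟩ hω
  · filter_upwards with ω h
    exact absurd h h1

end Pool.Agent.T2H62.MT
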