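import Pool.Agent.T2H62.MT.E

set_option autoImplicit false

/-! # The gaps between twins of random primes -/

namespace Pool.Agent.T2H62.MT

open Finset Filter Topology MeasureTheory ProbabilityTheory
open Pool.Agent.T2H62.MD
open Pool.Agent.T2H53.GW
open Pool.Agent.T2H62.MM (tlog)
open Pool.Agent.T2H62.MG (gp GT GT_LR)
open Pool.Agent.T2H62.ME (LR)

section det

variable {R : Set ℕ} [DecidablePred (· ∈ R)]

theorem shift_card (N : ℕ) : (((Ioc N (2 * N)).filter (fun n => n ∈ R)).card : ℝ) ≤ ((Ioc N (2 * N)).filter (fun n => n + 1 ∈ R)).card + 1 ∧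
    (((Ioc N (2 * N)).filter (fun n => n + 1 ∈ R)).card : ℝ) ≤ ((Ioc N (2 * N)).filter (fun n => n ∈ R)).card + 1 := by
  have h11 : (((Ioc N (2 * N)).filter (fun n => n ∈ R)).card) ≤ ((Ioc N (2 * N)).filter (fun n => n + 1 ∈ R)).card + 1 := by
    have h12 : ((Ioc N (2 * N)).filter (fun n => n ∈ R)).image (fun n => n - 1) ⊆ insert N ((Ioc N (2 * N)).filter (fun n => n + 1 ∈ R)) := by
      intro m hm
      rw [mem_image] at hm
      obtain ⟨n, hn, rfl⟩ := hm
      rw [mem_filter, mem_Ioc] at hn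
      rw [mem_insert]
      rcases Nat.eq_or_lt_of_le (show N ≤ n - 1 by omega) with h4 | h4
      · exact Or.inl h4.symm
      · right
        rw [mem_filter, mem_Ioc]
        have : n - 1 + 1 = n := by omega
        rw [this]
        exact ⟨by omega, hn.2⟩
    have h13 : ((Ioc N (2 * N)).filter (fun n => n ∈ R)).card = (((Ioc N (2 * N)).filter (fun n => n ∈ R)).image (fun n => n - 1)).card := by
      rw [card_image_of_injOn]
      intro a ha b hb hab
      rw [mem_coe, mem_filter, mem_Ioc] at ha hb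
      simp only at hab
      omega
    rw [h13]
    exact (card_le_card h12).trans (card_insert_le _ _)
  have h12 : ((Ioc N (2 * N)).filter (fun n => n + 1 ∈ R)).card ≤ ((Ioc N (2 * N)).filter (fun n => n ∈ R)).card + 1 := by
    have h13 : ((Ioc N (2 * N)).filter (fun n => n + 1 ∈ R)).image (fun n => n + 1) ⊆ insert (2 * N + 1) ((Ioc N (2 * N)).filter (fun n => n ∈ R)) := by
      intro m hm
      rw [mem_image] at hm
      obtain ⟨n, hn, rfl⟩ := hm
      rw [mem_filter, mem_Ioc] at hn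
      rw [mem_insert]
      rcases Nat.eq_or_lt_of_le hn.1.2 with h4 | h4
      · exact Or.inl (by rw [h4])
      · right
        rw [mem_filter, mem_Ioc]
        exact ⟨by omega, hn.2⟩
    rw [← card_image_of_injective ((Ioc N (2 * N)).filter (fun n => n + 1 ∈ R)) (f := fun n => n + 1) (fun a b h => Nat.add_right_cancel h)]
    exact (card_le_card h13).trans (card_insert_le _ _)
  exact ⟨by exact_mod_cast h11, by exact_mod_cast h12⟩

end det

variable {Ω : Type*} [MeasurableSpace Ω] {μ : Measure Ω} [IsProbabilityMeasure μ] {S : ℕ → Set Ω}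

/-- **the gaps between the twins**: law and moments -/
theorem twin_main {A : ℝ} (hA : 0 < A) (hm : ∀ n, MeasurableSet (S n)) (hi : iIndepSet S μ) (hp : ∀ n, μ.real (S n) = pr A n)
    (σ : ℝ) (hσ : 0 < σ) (hSG : Tendsto SG atTop (𝓝 σ)) :
    ∀ᵐ ω ∂μ, ∀ R : Set ℕ, ∀ _ : DecidablePred (· ∈ R), R = {n | ω ∈ S n ∧ ω ∈ S (n + 2)} → (∀ a : ℕ, ∃ n, a < n ∧ n ∈ R) ∧
      (∀ lam : ℝ, 0 < lam → Tendsto (fun N : ℕ => GT R (lam * (Real.log N ^ 2 / σ)) N * ((Real.log N ^ 2 / σ) / N)) atTop (𝓝 (Real.exp (-lam)))) ∧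
      ∀ k : ℕ, Tendsto (fun N : ℕ => (∑ r ∈ (Ioc N (2 * N)).filter (fun r => r ∈ R), ((gp R r : ℝ) / (Real.log N ^ 2 / σ)) ^ k) *
        ((Real.log N ^ 2 / σ) / N)) atTop (𝓝 (k.factorial : ℝ)) := by
  classical
  obtain ⟨C, hgap⟩ := twin_gap hA hm hi hp
  obtain ⟨n₀, hae⟩ := Tw_ae hA hm hi hp
  have hTp := Tw_prob hA hm hi hp
  have hst : Tendsto (fun N : ℕ => Real.log (N : ℝ) ^ 2 / σ) atTop atTop :=
    ((tendsto_pow_atTop (by norm_num)).comp tlog).atTop_div_const hσ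
  have hsB : ∀ᶠ N : ℕ in atTop, Real.log (N : ℝ) ^ 2 / σ ≤ Real.log N ^ 3 := by
    filter_upwards [tlog.eventually_ge_atTop (1 / σ)] with N h
    rw [div_le_iff₀ hσ] at h ⊢
    have : 0 ≤ Real.log (N : ℝ) ^ 2 := sq_nonneg _
    nlinarith
  have hq : ∀ w : ℝ, 0 < w → ∀ᶠ n : ℕ in atTop, μ.real (Tw S n) ≤ w := by
    intro w hw
    filter_upwards [hTp, pr_small A hA w hw] with n h1 h2
    rw [h1]
    calc pr A n * pr A (n + 2) ≤ pr A n * 1 := mul_le_mul_of_nonneg_left (pr_le_one A _) (pr_nonneg A _)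
      _ ≤ w := by rw [mul_one]; exact h2
  have hMQ : ∀ᶠ N : ℕ in atTop, ∀ H n : ℕ, N < n → Mq μ (Tw S) H n = Q2 A H n := by
    filter_upwards [eventually_forall_ge_atTop.2 hTp] with N h1 H n hn
    unfold Mq Q2
    exact sum_congr rfl fun a _ => h1 (n + a) (by omega)
  have hW : ∀ lam : ℝ, 0 < lam → ∀ δ : ℝ, 0 < δ → ∀ᶠ N : ℕ in atTop,
      (((Ioc N (2 * N)).filter (fun n => δ < |Mq μ (Tw S) ⌊lam * (Real.log N ^ 2 / σ)⌋₊ n - lam|)).card : ℝ) ≤ δ * N := by
    intro lam hl δ hδ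
    filter_upwards [few_two hA σ hσ hSG lam hl δ hδ, hMQ] with N h1 h2
    have h3 : (Ioc N (2 * N)).filter (fun n => δ < |Mq μ (Tw S) ⌊lam * (Real.log N ^ 2 / σ)⌋₊ n - lam|) =
        (Ioc N (2 * N)).filter (fun n => δ < |Q2 A ⌊lam * (Real.log N ^ 2 / σ)⌋₊ n - lam|) := by
      apply filter_congr
      intro n hn
      rw [mem_Ioc] at hn
      rw [h2 _ n hn.1]
    rw [h3]
    exact h1
  have hF : ∀ K : ℕ, ∀ᶠ N : ℕ in atTop, ∀ H : ℕ, Real.log N ^ 2 / σ ≤ H → (H : ℝ) ≤ Real.log N ^ (C + 1) →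
      (((Ioc N (2 * N)).filter (fun n => Mq μ (Tw S) H n < 1 / 2 * (H / (Real.log N ^ 2 / σ)))).card : ℝ) ≤ N / Real.log N ^ K := by
    intro K
    filter_upwards [few_low hA σ hσ hSG (C + 1) K, hMQ] with N h1 h2 H hH1 hH2
    have h3 : (Ioc N (2 * N)).filter (fun n => Mq μ (Tw S) H n < 1 / 2 * (H / (Real.log N ^ 2 / σ))) =
        (Ioc N (2 * N)).filter (fun n => Q2 A H n < 1 / 2 * (H / (Real.log N ^ 2 / σ))) := by
      apply filter_congr
      intro n hn
      rw [mem_Ioc] at hn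
      rw [h2 _ n hn.1]
    rw [h3]
    exact h1 H hH1 hH2
  have hcard : ∀ᵐ ω ∂μ, ∀ R : Set ℕ, ∀ _ : DecidablePred (· ∈ R), R = {n | ω ∈ Tw S n} → ∀ ε : ℝ, 0 < ε → ∀ᶠ N : ℕ in atTop,
      |(((Ioc N (2 * N)).filter (fun n => n ∈ R)).card : ℝ) - N / (Real.log N ^ 2 / σ)| ≤ ε * (N / (Real.log N ^ 2 / σ)) := by
    filter_upwards [HL_short A hA hm hi hp, hae] with ω h2 h3 R hdec hR ε hε
    have h5 := h2 {1, 3} (by decide) nu13 σ (hSG.congr fun z => SG_SS z) (1 / 2) (ε / 2 * σ) (by norm_num) (by positivity)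
    filter_upwards [h5, log_pow_small 2 (2 / (ε * σ)) 1 one_pos (by positivity), eventually_ge_atTop (3 + n₀)] with N h6 h7 h8
    have hN0 : (3 : ℝ) ≤ N := by exact_mod_cast (by omega : 3 ≤ N)
    have hℓ : 0 < Real.log (N : ℝ) := Real.log_pos (by linarith)
    have h9 : (N : ℝ) ^ (1 / 2 : ℝ) ≤ (N : ℝ) := by
      calc (N : ℝ) ^ (1 / 2 : ℝ) ≤ (N : ℝ) ^ (1 : ℝ) :=
            Real.rpow_le_rpow_of_exponent_le (by linarith) (by norm_num)
        _ = (N : ℝ) := Real.rpow_one _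
    have h10 := h6 (2 * N) (by push_cast; linarith) le_rfl
    have hcnt : cnt (Ioc N (2 * N)) (Fh S {1, 3}) ω = (((Ioc N (2 * N)).filter (fun n => n + 1 ∈ R)).card : ℝ) := by
      rw [cnt_eq]
      congr 2
      apply filter_congr
      intro n hn
      rw [mem_Ioc] at hn
      have g1 := h3 (n + 1) (by omega)
      unfold Fh
      rw [hR]
      simp only [mem_insert, mem_singleton, Set.mem_iInter, forall_eq_or_imp, forall_eq]
      exact g1.symm
    have hc2 : ({1, 3} : Finset ℕ).card = 2 := by decide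
    rw [hcnt, hc2] at h10
    have e1 : (((2 * N : ℕ) : ℝ) - N) = N := by push_cast; ring
    rw [e1] at h10
    obtain ⟨h11, h12⟩ := shift_card (R := R) N
    have h13 : 1 ≤ ε / 2 * σ * (N / Real.log N ^ 2) := by
      rw [Real.rpow_one] at h7
      rw [← mul_div_assoc, le_div_iff₀ (by positivity)]
      have h3 : ε / 2 * σ * (2 / (ε * σ) * Real.log N ^ 2) ≤ ε / 2 * σ * N := mul_le_mul_of_nonneg_left h7 (by positivity)
      have h4 : ε / 2 * σ * (2 / (ε * σ) * Real.log N ^ 2) = Real.log N ^ 2 := by field_simp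
      linarith
    have e2 : (N : ℝ) / (Real.log N ^ 2 / σ) = σ * (N / Real.log N ^ 2) := by field_simp
    rw [e2]
    have h14 := abs_le.1 h10
    rw [abs_le]
    constructor <;> linarith [h14.1, h14.2]
  have hmain := moments_ae_s (Tw_meas hm) (Tw_indep hm hi) (fun N : ℕ => Real.log (N : ℝ) ^ 2 / σ) hst 3 C hsB hq hW hF hcard hgap
  filter_upwards [hmain, hae] with ω h1 h2 R hdec hR
  obtain ⟨hunb', hlaw, hmom⟩ := h1 {n | ω ∈ Tw S n} (fun n => Classical.propDecidable _) rfl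
  obtain ⟨R', hR'⟩ : ∃ R' : Set ℕ, R' = {n | ω ∈ Tw S n} := ⟨_, rfl⟩
  rw [← hR'] at hunb'
  have hmem : ∀ n : ℕ, n₀ ≤ n → (n ∈ R ↔ n ∈ R') := by
    intro n hn
    rw [hR, hR']
    exact (h2 n hn).symm
  have hgp : ∀ r : ℕ, n₀ ≤ r → gp R r = gp R' r := by
    intro r hr
    unfold gp
    congr 1
    ext g
    simp only [Set.mem_ofPred_eq]
    constructor
    · rintro ⟨g1, g2⟩
      exact ⟨g1, (hmem _ (by omega)).1 g2⟩
    · rintro ⟨g1, g2⟩
      exact ⟨g1, (hmem _ (by omega)).2 g2⟩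
  have hunb : ∀ a : ℕ, ∃ n, a < n ∧ n ∈ R := by
    intro a
    obtain ⟨n, g1, g2⟩ := hunb' (a + n₀)
    exact ⟨n, by omega, (hmem n (by omega)).2 g2⟩
  have hfil : ∀ N : ℕ, n₀ ≤ N → (Ioc N (2 * N)).filter (fun r => r ∈ R) = (Ioc N (2 * N)).filter (fun r => r ∈ R') := by
    intro N hN
    apply filter_congr
    intro n hn
    rw [mem_Ioc] at hn
    exact hmem n (by omega)
  refine ⟨hunb, ?_, ?_⟩
  · intro lam hlam
    rw [Metric.tendsto_atTop]
    intro ε hε
    obtain ⟨n₁, hn₁⟩ := eventually_atTop.1 (hlaw lam hlam (ε / 2) (by positivity))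
    refine ⟨n₀ + n₁ + 3, fun N hN => ?_⟩
    have h4 := hn₁ N (by omega)
    have hN0 : (0 : ℝ) < N := by exact_mod_cast (by omega : 0 < N)
    have hl : 0 < Real.log (N : ℝ) := Real.log_pos (by exact_mod_cast (by omega : 1 < N))
    have e1 : GT R (lam * (Real.log N ^ 2 / σ)) N = (LR R' ⌊lam * (Real.log N ^ 2 / σ)⌋₊ N : ℝ) := by
      rw [← GT_LR hunb' _ (by positivity)]
      unfold GT
      refine sum_congr (hfil N (by omega)) fun r hr => ?_
      rw [mem_filter, mem_Ioc] at hr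
      rw [hgp r (by omega)]
    have e2 : (LR R' ⌊lam * (Real.log N ^ 2 / σ)⌋₊ N : ℝ) = (LR {n | ω ∈ Tw S n} ⌊lam * (Real.log N ^ 2 / σ)⌋₊ N : ℝ) := by
      subst hR'
      unfold LR
      congr
    rw [e1, e2]
    obtain ⟨X, hX⟩ : ∃ X : ℝ, X = (LR {n | ω ∈ Tw S n} ⌊lam * (Real.log N ^ 2 / σ)⌋₊ N : ℝ) := ⟨_, rfl⟩
    have h4' : |X - Real.exp (-lam) * (N / (Real.log N ^ 2 / σ))| ≤ ε / 2 * (N / (Real.log N ^ 2 / σ)) := by
      rw [hX]
      convert h4 using 6
    rw [← hX, Real.dist_eq,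
      show X * ((Real.log N ^ 2 / σ) / N) - Real.exp (-lam) =
      (X - Real.exp (-lam) * (N / (Real.log N ^ 2 / σ))) * ((Real.log N ^ 2 / σ) / N) by field_simp, abs_mul,
      abs_of_pos (show 0 < (Real.log (N : ℝ) ^ 2 / σ) / N by positivity)]
    calc |X - Real.exp (-lam) * (N / (Real.log N ^ 2 / σ))| * ((Real.log N ^ 2 / σ) / N) ≤
          ε / 2 * (N / (Real.log N ^ 2 / σ)) * ((Real.log N ^ 2 / σ) / N) := mul_le_mul_of_nonneg_right h4' (by positivity)
      _ = ε / 2 := by field_simp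
      _ < ε := by linarith
  · intro k
    refine (hmom k).congr' ?_
    filter_upwards [eventually_ge_atTop n₀] with N hN
    congr 1
    subst hR'
    have e3 : (Ioc N (2 * N)).filter (fun r => r ∈ R) = @Finset.filter ℕ (fun r => r ∈ {n | ω ∈ Tw S n}) (fun n => Classical.propDecidable _) (Ioc N (2 * N)) := by
      rw [hfil N hN]
    rw [e3]
    refine sum_congr rfl fun r hr => ?_
    rw [mem_filter, mem_Ioc] at hr
    rw [hgp r (by omega)]

end Pool.Agent.T2H62.MT
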