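import Pool.Agent.T2H62.ME.E
import Pool.Agent.T2H62.MG.E
import Pool.Agent.T2H62.MG.F

set_option autoImplicit false

/-! # Independent events with a general scale: the number of the empty windows -/

namespace Pool.Agent.T2H62.MT

open Finset Filter Topology MeasureTheory ProbabilityTheory
open Pool.Agent.T2H62.MD
open Pool.Agent.T2H53.GW
open Pool.Agent.T2H62.MM (tlog)
open Pool.Agent.T2H62.ME (Em mem_Em indep_compl prod_exp exp_lip EmR LR LR_anti sum_up sum_dn)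

section ae

variable {Ω : Type*} [MeasurableSpace Ω] {μ : Measure Ω} {S : ℕ → Set Ω}

/-- the mean number of the events in the window `(n, n + H]` -/
noncomputable def Mq (μ : Measure Ω) (S : ℕ → Set Ω) (H n : ℕ) : ℝ := ∑ a ∈ Icc 1 H, μ.real (S (n + a))

theorem Mq_nonneg (H n : ℕ) : 0 ≤ Mq μ S H n := sum_nonneg fun _ _ => measureReal_nonneg

variable [IsProbabilityMeasure μ]

theorem prob_Em_s (hm : ∀ n, MeasurableSet (S n)) (hi : iIndepSet S μ) (H n : ℕ) :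
    μ.real (Em S H n) = ∏ h ∈ Icc 1 H, (1 - μ.real (S (n + h))) := by
  unfold Em
  rw [prob_Fh (fun n => (hm n).compl) (indep_compl hi)]
  refine prod_congr rfl fun h _ => ?_
  rw [probReal_compl_eq_one_sub (hm _)]

/-- the expected number of the empty windows -/
theorem mean_empty_s (hm : ∀ n, MeasurableSet (S n)) (hi : iIndepSet S μ) (s : ℕ → ℝ)
    (hq : ∀ w : ℝ, 0 < w → ∀ᶠ n : ℕ in atTop, μ.real (S n) ≤ w) (lam : ℝ) (hl : 0 < lam)
    (hW : ∀ δ : ℝ, 0 < δ → ∀ᶠ N : ℕ in atTop,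
      (((Ioc N (2 * N)).filter (fun n => δ < |Mq μ S ⌊lam * s N⌋₊ n - lam|)).card : ℝ) ≤ δ * N) (δ : ℝ) (hδ : 0 < δ) :
    ∀ᶠ N : ℕ in atTop, |∑ n ∈ Ioc N (2 * N), μ.real (Em S ⌊lam * s N⌋₊ n) - Real.exp (-lam) * N| ≤ δ * N := by
  obtain ⟨κ, hκ⟩ : ∃ κ, κ = δ / 4 := ⟨_, rfl⟩
  have hκ0 : 0 < κ := by rw [hκ]; positivity
  obtain ⟨w, hw⟩ : ∃ w, w = min (1 / 2) (δ / (4 * (lam + κ))) := ⟨_, rfl⟩
  have hw0 : 0 < w := by rw [hw]; exact lt_min (by norm_num) (by positivity)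
  have hw1 : w ≤ 1 / 2 := by rw [hw]; exact min_le_left _ _
  have hwl : w * (lam + κ) ≤ δ / 4 := by
    have : w ≤ δ / (4 * (lam + κ)) := by rw [hw]; exact min_le_right _ _
    rw [le_div_iff₀ (by positivity)] at this
    linarith
  filter_upwards [hW κ hκ0, eventually_forall_ge_atTop.2 (hq w hw0)] with N h1 h2
  obtain ⟨H, hHd⟩ : ∃ H, H = ⌊lam * s N⌋₊ := ⟨_, rfl⟩
  rw [← hHd] at h1 ⊢
  have hN0 : (0 : ℝ) ≤ N := Nat.cast_nonneg _
  have h3 : ∀ n ∈ Ioc N (2 * N), |μ.real (Em S H n) - Real.exp (-lam)| ≤ δ / 2 + if κ < |Mq μ S H n - lam| then 1 else 0 := by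
    intro n hn
    rw [mem_Ioc] at hn
    split_ifs with h4
    · have c1 := measureReal_le_one (μ := μ) (s := Em S H n)
      have c2 : 0 ≤ μ.real (Em S H n) := measureReal_nonneg
      have c3 : Real.exp (-lam) ≤ 1 := Real.exp_le_one_iff.2 (by linarith)
      have c4 : 0 < Real.exp (-lam) := Real.exp_pos _
      rw [abs_le]
      constructor <;> linarith
    · push Not at h4
      rw [prob_Em_s hm hi]
      have b1 := prod_exp (Icc 1 H) (fun h => μ.real (S (n + h))) w (fun h _ => measureReal_nonneg) (fun h _ => h2 (n + h) (by omega)) hw1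
      have b2 := exp_lip (Mq μ S H n) lam (Mq_nonneg H n) hl.le
      have b4 : w * Mq μ S H n ≤ w * (lam + κ) := by
        apply mul_le_mul_of_nonneg_left _ hw0.le
        linarith [le_abs_self (Mq μ S H n - lam)]
      have b6 : ∑ h ∈ Icc 1 H, μ.real (S (n + h)) = Mq μ S H n := rfl
      rw [b6] at b1
      calc |∏ h ∈ Icc 1 H, (1 - μ.real (S (n + h))) - Real.exp (-lam)| ≤ |∏ h ∈ Icc 1 H, (1 - μ.real (S (n + h))) - Real.exp (-(Mq μ S H n))| +
            |Real.exp (-(Mq μ S H n)) - Real.exp (-lam)| := abs_sub_le _ _ _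
        _ ≤ w * Mq μ S H n + |Mq μ S H n - lam| := add_le_add b1 b2
        _ ≤ δ / 4 + δ / 4 := by linarith
        _ = δ / 2 + 0 := by ring
  have h4 : Real.exp (-lam) * N = ∑ n ∈ Ioc N (2 * N), Real.exp (-lam) := by
    rw [sum_const, Nat.card_Ioc, nsmul_eq_mul]
    have : 2 * N - N = N := by omega
    rw [this]
    ring
  rw [h4, ← sum_sub_distrib]
  refine (abs_sum_le_sum_abs _ _).trans ((sum_le_sum h3).trans ?_)
  rw [sum_add_distrib, sum_const, Nat.card_Ioc, nsmul_eq_mul, ← sum_filter, sum_const, nsmul_eq_mul, mul_one]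
  have hNN : 2 * N - N = N := by omega
  rw [hNN]
  have h7 : κ * (N : ℝ) = δ / 4 * N := by rw [hκ]
  have h8 : 0 ≤ δ * (N : ℝ) := by positivity
  linarith

/-- **almost surely, the number of the empty windows** -/
theorem emp_one_s (hm : ∀ n, MeasurableSet (S n)) (hi : iIndepSet S μ) (s : ℕ → ℝ) (hst : Tendsto s atTop atTop)
    (B : ℕ) (hsB : ∀ᶠ N : ℕ in atTop, s N ≤ Real.log N ^ B)
    (hq : ∀ w : ℝ, 0 < w → ∀ᶠ n : ℕ in atTop, μ.real (S n) ≤ w) (lam δ : ℝ) (hl : 0 < lam)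
    (hW : ∀ δ : ℝ, 0 < δ → ∀ᶠ N : ℕ in atTop,
      (((Ioc N (2 * N)).filter (fun n => δ < |Mq μ S ⌊lam * s N⌋₊ n - lam|)).card : ℝ) ≤ δ * N)
    (hδ : 0 < δ) (hδ1 : δ ≤ 1) :
    ∀ᵐ ω ∂μ, ∀ᶠ N : ℕ in atTop, |cnt (Ioc N (2 * N)) (Em S ⌊lam * s N⌋₊) ω - Real.exp (-lam) * N| ≤ 2 * δ * N := by
  classical
  obtain ⟨Bd, hBd⟩ : ∃ Bd : ℕ → Set Ω, Bd = fun N : ℕ =>
      {ω | δ * N < |cnt (Ioc N (2 * N)) (Em S ⌊lam * s N⌋₊) ω - ∑ n ∈ Ioc N (2 * N), μ.real (Em S ⌊lam * s N⌋₊ n)|} := ⟨_, rfl⟩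
  have hprob : ∀ᶠ N : ℕ in atTop, μ.real (Bd N) ≤ 1 / (N : ℝ) ^ 2 := by
    filter_upwards [log_pow_small B (lam + 1) (1 / 4) (by norm_num) (by positivity), log_pow_small 1 (16 / δ ^ 2 * 4) (1 / 2) (by norm_num) (by positivity),
      eventually_ge_atTop 3, tlog.eventually_ge_atTop 1, hsB, hst.eventually_gt_atTop 0] with N h1 h2 h3 h4 h4' h4''
    obtain ⟨H, hHd⟩ : ∃ H, H = ⌊lam * s N⌋₊ := ⟨_, rfl⟩
    have hN0 : (0 : ℝ) < N := by exact_mod_cast (by omega : 0 < N)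
    have hN1 : (1 : ℝ) ≤ N := by exact_mod_cast (by omega : 1 ≤ N)
    have hH1 : (H : ℝ) + 1 ≤ (N : ℝ) ^ (1 / 4 : ℝ) := by
      have b1 : (H : ℝ) ≤ lam * s N := by rw [hHd]; exact Nat.floor_le (by positivity)
      have b2 : lam * s N ≤ lam * Real.log N ^ B := mul_le_mul_of_nonneg_left h4' hl.le
      have b3 : (1 : ℝ) ≤ Real.log N ^ B := one_le_pow₀ h4
      refine le_trans ?_ h1
      linarith
    have hH0 : (0 : ℝ) < (H : ℝ) + 1 := by positivity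
    obtain ⟨t, ht⟩ : ∃ t : ℝ, t = δ * N / ((H : ℝ) + 1) := ⟨_, rfl⟩
    have ht0 : 0 < t := by rw [ht]; positivity
    have htN : t ≤ N := by
      rw [ht, div_le_iff₀ hH0]
      have b1 : δ * (N : ℝ) ≤ 1 * N := mul_le_mul_of_nonneg_right hδ1 hN0.le
      have b2 : (0 : ℝ) ≤ H := Nat.cast_nonneg _
      nlinarith
    have hmean : ∑ n ∈ Ioc N (2 * N), μ.real (Fh (fun n => (S n)ᶜ) (Icc 1 H) n) ≤ N := by
      calc ∑ n ∈ Ioc N (2 * N), μ.real (Fh (fun n => (S n)ᶜ) (Icc 1 H) n) ≤ ∑ n ∈ Ioc N (2 * N), (1 : ℝ) :=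
            sum_le_sum fun n _ => measureReal_le_one
        _ = N := by
            rw [sum_const, Nat.card_Ioc, nsmul_eq_mul]
            have : 2 * N - N = N := by omega
            rw [this, mul_one]
    have h5 := dev_prob (μ := μ) (S := fun n => (S n)ᶜ) (fun n => (hm n).compl) (indep_compl hi) (Icc 1 H) H (Subset.refl _) N (2 * N) N t
      hmean ht0.le htN hN0
    have e1 : ((H : ℝ) + 1) * t = δ * N := by rw [ht]; field_simp
    rw [e1] at h5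
    rw [hBd]
    show μ.real {ω | δ * N < |cnt (Ioc N (2 * N)) (Em S ⌊lam * s N⌋₊) ω - ∑ n ∈ Ioc N (2 * N), μ.real (Em S ⌊lam * s N⌋₊ n)|} ≤ _
    rw [← hHd]
    refine h5.trans ?_
    have e2 : 4 * Real.log N ≤ t ^ 2 / (4 * N) := by
      rw [ht, div_pow, div_div, le_div_iff₀ (by positivity)]
      have b1 : ((H : ℝ) + 1) ^ 2 ≤ (N : ℝ) ^ (1 / 2 : ℝ) := by
        calc ((H : ℝ) + 1) ^ 2 ≤ ((N : ℝ) ^ (1 / 4 : ℝ)) ^ 2 := pow_le_pow_left₀ hH0.le hH1 2
          _ = (N : ℝ) ^ (1 / 2 : ℝ) := by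
              rw [← Real.rpow_natCast, ← Real.rpow_mul hN0.le]
              norm_num
      have b2 : (N : ℝ) ^ (1 / 2 : ℝ) * (N : ℝ) ^ (1 / 2 : ℝ) = N := by
        rw [← Real.rpow_add hN0]
        norm_num
      rw [pow_one] at h2
      have b3 : 64 * Real.log N ≤ δ ^ 2 * (N : ℝ) ^ (1 / 2 : ℝ) := by
        have : 16 / δ ^ 2 * 4 * Real.log N * δ ^ 2 ≤ (N : ℝ) ^ (1 / 2 : ℝ) * δ ^ 2 := mul_le_mul_of_nonneg_right h2 (by positivity)
        have e3 : 16 / δ ^ 2 * 4 * Real.log N * δ ^ 2 = 64 * Real.log N := by field_simp; norm_num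
        linarith
      have hl0 : 0 ≤ Real.log (N : ℝ) := by linarith
      calc 4 * Real.log N * (((H : ℝ) + 1) ^ 2 * (4 * N)) ≤ 4 * Real.log N * ((N : ℝ) ^ (1 / 2 : ℝ) * (4 * N)) := by
            apply mul_le_mul_of_nonneg_left _ (by positivity)
            exact mul_le_mul_of_nonneg_right b1 (by positivity)
        _ = (16 * Real.log N) * (N : ℝ) ^ (1 / 2 : ℝ) * N := by ring
        _ ≤ (δ ^ 2 * (N : ℝ) ^ (1 / 2 : ℝ)) * (N : ℝ) ^ (1 / 2 : ℝ) * N := by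
            apply mul_le_mul_of_nonneg_right _ hN0.le
            apply mul_le_mul_of_nonneg_right _ (by positivity)
            linarith
        _ = δ ^ 2 * ((N : ℝ) ^ (1 / 2 : ℝ) * (N : ℝ) ^ (1 / 2 : ℝ)) * N := by ring
        _ = (δ * N) ^ 2 := by rw [b2]; ring
    have e3 : Real.exp (-(t ^ 2 / (4 * N))) ≤ 1 / (N : ℝ) ^ 4 := by
      calc Real.exp (-(t ^ 2 / (4 * N))) ≤ Real.exp (-(4 * Real.log N)) := Real.exp_le_exp.2 (by linarith)
        _ = 1 / (N : ℝ) ^ 4 := by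
            rw [Real.exp_neg, one_div, mul_comm, Real.exp_mul, Real.exp_log hN0]
            norm_num
    have e4 : (H : ℝ) + 1 ≤ N := by
      refine hH1.trans ?_
      calc (N : ℝ) ^ (1 / 4 : ℝ) ≤ (N : ℝ) ^ (1 : ℝ) := Real.rpow_le_rpow_of_exponent_le hN1 (by norm_num)
        _ = N := Real.rpow_one _
    calc ((H : ℝ) + 1) * (2 * Real.exp (-(t ^ 2 / (4 * N)))) ≤ N * (2 * (1 / (N : ℝ) ^ 4)) := by
          apply mul_le_mul e4 _ (by positivity) hN0.le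
          linarith
      _ = 2 / N * (1 / (N : ℝ) ^ 2) := by field_simp
      _ ≤ 1 * (1 / (N : ℝ) ^ 2) := by
          apply mul_le_mul_of_nonneg_right _ (by positivity)
          rw [div_le_one hN0]
          exact_mod_cast (by omega : 2 ≤ N)
      _ = 1 / (N : ℝ) ^ 2 := one_mul _
  obtain ⟨n₀, hn₀⟩ := eventually_atTop.1 hprob
  have hsum : Summable (fun N : ℕ => 1 / (N : ℝ) ^ 2) := Real.summable_one_div_nat_pow.2 (by norm_num)
  have h2 := bc (μ := μ) Bd n₀ _ hsum (fun n hn => hn₀ n hn)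
  filter_upwards [h2] with ω hω
  filter_upwards [hω, mean_empty_s hm hi s hq lam hl hW δ hδ] with N hN hN2
  rw [hBd] at hN
  have h3 : |cnt (Ioc N (2 * N)) (Em S ⌊lam * s N⌋₊) ω - ∑ n ∈ Ioc N (2 * N), μ.real (Em S ⌊lam * s N⌋₊ n)| ≤ δ * N := by
    by_contra h5
    push Not at h5
    exact hN h5
  calc |cnt (Ioc N (2 * N)) (Em S ⌊lam * s N⌋₊) ω - Real.exp (-lam) * N| ≤
        |cnt (Ioc N (2 * N)) (Em S ⌊lam * s N⌋₊) ω - ∑ n ∈ Ioc N (2 * N), μ.real (Em S ⌊lam * s N⌋₊ n)| +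
        |∑ n ∈ Ioc N (2 * N), μ.real (Em S ⌊lam * s N⌋₊ n) - Real.exp (-lam) * N| := abs_sub_le _ _ _
    _ ≤ δ * N + δ * N := add_le_add h3 hN2
    _ = 2 * δ * N := by ring


theorem em_all_s (hm : ∀ n, MeasurableSet (S n)) (hi : iIndepSet S μ) (s : ℕ → ℝ) (hst : Tendsto s atTop atTop)
    (B : ℕ) (hsB : ∀ᶠ N : ℕ in atTop, s N ≤ Real.log N ^ B)
    (hq : ∀ w : ℝ, 0 < w → ∀ᶠ n : ℕ in atTop, μ.real (S n) ≤ w)
    (hW : ∀ lam : ℝ, 0 < lam → ∀ δ : ℝ, 0 < δ → ∀ᶠ N : ℕ in atTop,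
      (((Ioc N (2 * N)).filter (fun n => δ < |Mq μ S ⌊lam * s N⌋₊ n - lam|)).card : ℝ) ≤ δ * N) :
    ∀ᵐ ω ∂μ, ∀ R : Set ℕ, ∀ _ : DecidablePred (· ∈ R), R = {n | ω ∈ S n} → ∀ q : ℚ, 0 < (q : ℝ) → ∀ δ : ℝ, 0 < δ →
      ∀ᶠ N : ℕ in atTop, |(EmR R ⌊(q : ℝ) * s N⌋₊ N : ℝ) - Real.exp (-(q : ℝ)) * N| ≤ δ * N := by
  classical
  have hae : ∀ᵐ ω ∂μ, ∀ q : {q : ℚ // 0 < (q : ℝ)}, ∀ k : ℕ, ∀ᶠ N : ℕ in atTop,
      |cnt (Ioc N (2 * N)) (Em S ⌊(q.1 : ℝ) * s N⌋₊) ω - Real.exp (-(q.1 : ℝ)) * N| ≤ 2 * (1 / (2 * ((k : ℝ) + 1))) * N :=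
    ae_all_iff.2 fun q => ae_all_iff.2 fun k => emp_one_s hm hi s hst B hsB hq (q.1 : ℝ) (1 / (2 * ((k : ℝ) + 1))) q.2 (hW q.1 q.2) (by positivity) (by
      rw [div_le_one (by positivity)]
      have : (0 : ℝ) ≤ k := Nat.cast_nonneg k
      linarith)
  filter_upwards [hae] with ω hω R hdec hR q hq δ hδ
  obtain ⟨k, hk⟩ := exists_nat_one_div_lt hδ
  filter_upwards [hω ⟨q, hq⟩ k] with N hN
  have h1 : cnt (Ioc N (2 * N)) (Em S ⌊(q : ℝ) * s N⌋₊) ω = (EmR R ⌊(q : ℝ) * s N⌋₊ N : ℝ) := by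
    rw [cnt_eq]
    unfold EmR
    congr 2
    apply filter_congr
    intro n _
    rw [mem_Em, hR]
    rfl
  rw [← h1]
  refine hN.trans ?_
  apply mul_le_mul_of_nonneg_right _ (Nat.cast_nonneg _)
  have e1 : 2 * (1 / (2 * ((k : ℝ) + 1))) = 1 / ((k : ℝ) + 1) := by field_simp
  rw [e1]
  exact hk.le

end ae

section det

variable (R : Set ℕ) [DecidablePred (· ∈ R)]

/-- **the law of the gaps** from the law of the empty windows -/
theorem law_det_s (s : ℕ → ℝ) (hst : Tendsto s atTop atTop) (B : ℕ) (hsB : ∀ᶠ N : ℕ in atTop, s N ≤ Real.log N ^ B)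
    (hEm : ∀ q : ℚ, 0 < (q : ℝ) → ∀ δ : ℝ, 0 < δ → ∀ᶠ N : ℕ in atTop,
      |(EmR R ⌊(q : ℝ) * s N⌋₊ N : ℝ) - Real.exp (-(q : ℝ)) * N| ≤ δ * N) (lam : ℝ) (hl : 0 < lam) (ε : ℝ) (hε : 0 < ε) :
    ∀ᶠ N : ℕ in atTop, |(LR R ⌊lam * s N⌋₊ N : ℝ) - Real.exp (-lam) * (N / s N)| ≤ ε * (N / s N) := by
  obtain ⟨η, hη⟩ : ∃ η, η = min (min (ε / 20) 1) (lam / 2) := ⟨_, rfl⟩
  have hη0 : 0 < η := by rw [hη]; exact lt_min (lt_min (by positivity) one_pos) (by positivity)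
  have hη1 : η ≤ 1 := by rw [hη]; exact (min_le_left _ _).trans (min_le_right _ _)
  have hηε : η ≤ ε / 20 := by rw [hη]; exact (min_le_left _ _).trans (min_le_left _ _)
  have hηl : η ≤ lam / 2 := by rw [hη]; exact min_le_right _ _
  have hE1 : Real.exp (-lam) ≤ 1 := Real.exp_le_one_iff.2 (by linarith)
  have hE0 : 0 < Real.exp (-lam) := Real.exp_pos _
  -- rational exponents
  obtain ⟨q2, hq2a, hq2b⟩ := exists_rat_btwn (show lam - η < lam by linarith)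
  obtain ⟨q1, hq1a, hq1b⟩ := exists_rat_btwn (show lam - η < (q2 : ℝ) from hq2a)
  obtain ⟨q3, hq3a, hq3b⟩ := exists_rat_btwn (show lam < lam + η by linarith)
  obtain ⟨q4, hq4a, hq4b⟩ := exists_rat_btwn (show (q3 : ℝ) < lam + η from hq3b)
  obtain ⟨D, hD⟩ : ∃ D : ℝ, D = q2 - q1 := ⟨_, rfl⟩
  have hD0 : 0 < D := by rw [hD]; linarith
  obtain ⟨D', hD'⟩ : ∃ D' : ℝ, D' = q4 - q3 := ⟨_, rfl⟩
  have hD0' : 0 < D' := by rw [hD']; linarith
  have hq10 : (0 : ℝ) < q1 := by linarith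
  have hq20 : (0 : ℝ) < q2 := by linarith
  have hq30 : (0 : ℝ) < q3 := by linarith
  have hq40 : (0 : ℝ) < q4 := by linarith
  -- `N / s N` is large
  have hbig : ∀ᶠ N : ℕ in atTop, 1 ≤ η * (N / s N) := by
    filter_upwards [Pool.Agent.T2H62.MD.log_pow_small B (1 / η) 1 one_pos (by positivity), hst.eventually_gt_atTop 0, hsB] with N h1 h2 h2'
    rw [Real.rpow_one] at h1
    rw [← mul_div_assoc, le_div_iff₀ h2]
    have h3 : η * (1 / η * Real.log N ^ B) ≤ η * N := mul_le_mul_of_nonneg_left h1 hη0.le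
    have h4 : η * (1 / η * Real.log N ^ B) = Real.log N ^ B := by field_simp
    linarith
  filter_upwards [hEm q1 hq10 (η * D) (by positivity), hEm q2 hq20 (η * D) (by positivity), hEm q3 hq30 (η * D') (by positivity),
    hEm q4 hq40 (η * D') (by positivity), hbig, hst.eventually_ge_atTop ((1 + 1 / η) / D + 1), hst.eventually_ge_atTop ((1 / η) / D'), eventually_ge_atTop 1]
    with N k1 k2 k3 k4 k5 k6 k7 k8
  obtain ⟨ℓ, hℓ⟩ : ∃ ℓ, ℓ = s N := ⟨_, rfl⟩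
  rw [← hℓ] at k1 k2 k3 k4 k5 k6 k7 ⊢
  have hN0 : (0 : ℝ) < N := by exact_mod_cast (by omega : 0 < N)
  have hℓ0 : 0 < ℓ := by
    have : 0 < (1 + 1 / η) / D := by positivity
    linarith
  have hDl : 1 + 1 / η ≤ D * ℓ := by
    have h1 : (1 + 1 / η) / D ≤ ℓ := by linarith
    rw [div_le_iff₀ hD0] at h1
    linarith
  have hDl' : 1 / η ≤ D' * ℓ := by
    rw [div_le_iff₀ hD0'] at k7
    linarith
  obtain ⟨G, hG⟩ : ∃ G : ℝ, G = N / ℓ := ⟨_, rfl⟩
  rw [← hG] at k5 ⊢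
  have hG0 : 0 < G := by rw [hG]; positivity
  have hGN : (N : ℝ) = G * ℓ := by rw [hG]; field_simp
  rw [abs_le]
  constructor
  · -- lower bound
    obtain ⟨H3, hH3⟩ : ∃ H, H = ⌊(q3 : ℝ) * ℓ⌋₊ := ⟨_, rfl⟩
    obtain ⟨H4, hH4⟩ : ∃ H, H = ⌊(q4 : ℝ) * ℓ⌋₊ := ⟨_, rfl⟩
    rw [← hH3] at k3
    rw [← hH4] at k4
    have b1 : H3 ≤ H4 := by
      rw [hH3, hH4]
      exact Nat.floor_le_floor (mul_le_mul_of_nonneg_right hq4a.le hℓ0.le)
    obtain ⟨k, hk⟩ := Nat.exists_eq_add_of_le b1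
    have b2 : (k : ℝ) ≤ D' * ℓ + 1 := by
      have c1 : (H4 : ℝ) ≤ q4 * ℓ := by rw [hH4]; exact Nat.floor_le (by positivity)
      have c2 : (q3 : ℝ) * ℓ < H3 + 1 := by rw [hH3]; exact Nat.lt_floor_add_one _
      have c3 : (H4 : ℝ) = H3 + k := by exact_mod_cast hk
      rw [hD']
      linarith
    have b3 := sum_dn R H3 N k8 k
    rw [← hk] at b3
    have b4 : (LR R H3 N : ℝ) ≤ LR R ⌊lam * ℓ⌋₊ N := by
      have : ⌊lam * ℓ⌋₊ ≤ H3 := by
        rw [hH3]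
        exact Nat.floor_le_floor (mul_le_mul_of_nonneg_right hq3a.le hℓ0.le)
      exact_mod_cast LR_anti R this N
    have b5 : D' * (Real.exp (-lam) - η) ≤ Real.exp (-(q3 : ℝ)) - Real.exp (-(q4 : ℝ)) := by
      have c1 : Real.exp (-(q3 : ℝ)) = Real.exp (-(q4 : ℝ)) * Real.exp D' := by
        rw [← Real.exp_add]
        congr 1
        rw [hD']
        ring
      have c2 := Real.add_one_le_exp D'
      have c3 : Real.exp (-lam) - η ≤ Real.exp (-(q4 : ℝ)) := by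
        have d1 : Real.exp (-lam) * Real.exp (-η) ≤ Real.exp (-(q4 : ℝ)) := by
          rw [← Real.exp_add]
          exact Real.exp_le_exp.2 (by linarith)
        have d2 := Real.add_one_le_exp (-η)
        have d3 : Real.exp (-lam) * (1 - η) ≤ Real.exp (-lam) * Real.exp (-η) := mul_le_mul_of_nonneg_left (by linarith) hE0.le
        nlinarith
      have c4 : 0 < Real.exp (-(q4 : ℝ)) := Real.exp_pos _
      rw [c1]
      nlinarith
    have b6 := (abs_le.1 k3).1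
    have b7 := (abs_le.1 k4).2
    have b8 : (D' * (Real.exp (-lam) - η) - 2 * (η * D')) * N ≤ (EmR R H3 N : ℝ) - EmR R H4 N := by
      have := mul_le_mul_of_nonneg_right b5 hN0.le
      linarith
    -- divide
    obtain ⟨X, hX⟩ : ∃ X, X = Real.exp (-lam) - 3 * η := ⟨_, rfl⟩
    have b9 : D' * X * N ≤ (k : ℝ) * (LR R H3 N + 1) := by
      have : D' * X * N = (D' * (Real.exp (-lam) - η) - 2 * (η * D')) * N := by rw [hX]; ring
      rw [this]
      linarith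
    have b10 : (k : ℝ) * (LR R H3 N + 1) ≤ (D' * ℓ + 1) * (LR R H3 N + 1) := mul_le_mul_of_nonneg_right b2 (by positivity)
    have b11 : X - η ≤ X * (D' * ℓ) / (D' * ℓ + 1) := by
      rw [le_div_iff₀ (by positivity)]
      have c1 : X ≤ 1 := by rw [hX]; linarith
      have c2 : η * (D' * ℓ + 1) ≥ 1 := by
        have : η * (1 / η) ≤ η * (D' * ℓ) := mul_le_mul_of_nonneg_left hDl' hη0.le
        rw [mul_one_div_cancel hη0.ne'] at this
        linarith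
      linarith
    have b12 : (X - η) * G ≤ LR R H3 N + 1 := by
      have c1 : X * (D' * ℓ) / (D' * ℓ + 1) * G ≤ LR R H3 N + 1 := by
        rw [div_mul_eq_mul_div, div_le_iff₀ (by positivity)]
        calc X * (D' * ℓ) * G = D' * X * N := by rw [hGN]; ring
          _ ≤ _ := b9.trans b10
          _ = _ := by ring
      exact (mul_le_mul_of_nonneg_right b11 hG0.le).trans c1
    have b13 : (X - η) * G = Real.exp (-lam) * G - 4 * η * G := by rw [hX]; ring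
    have b14 : 5 * η * G ≤ ε * G := mul_le_mul_of_nonneg_right (by linarith) hG0.le
    linarith
  · -- upper bound
    obtain ⟨H1, hH1⟩ : ∃ H, H = ⌊(q1 : ℝ) * ℓ⌋₊ := ⟨_, rfl⟩
    obtain ⟨H2, hH2⟩ : ∃ H, H = ⌊(q2 : ℝ) * ℓ⌋₊ := ⟨_, rfl⟩
    rw [← hH1] at k1
    rw [← hH2] at k2
    have b1 : H1 ≤ H2 := by
      rw [hH1, hH2]
      exact Nat.floor_le_floor (mul_le_mul_of_nonneg_right hq1b.le hℓ0.le)
    obtain ⟨k, hk⟩ := Nat.exists_eq_add_of_le b1
    have b2 : D * ℓ - 1 ≤ (k : ℝ) := by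
      have c1 : (H1 : ℝ) ≤ q1 * ℓ := by rw [hH1]; exact Nat.floor_le (by positivity)
      have c2 : (q2 : ℝ) * ℓ < H2 + 1 := by rw [hH2]; exact Nat.lt_floor_add_one _
      have c3 : (H2 : ℝ) = H1 + k := by exact_mod_cast hk
      rw [hD]
      linarith
    have b3 := sum_up R H1 N k8 k
    rw [← hk] at b3
    have b4 : (LR R ⌊lam * ℓ⌋₊ N : ℝ) ≤ LR R H2 N := by
      have : H2 ≤ ⌊lam * ℓ⌋₊ := by
        rw [hH2]
        exact Nat.floor_le_floor (mul_le_mul_of_nonneg_right hq2b.le hℓ0.le)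
      exact_mod_cast LR_anti R this N
    have b5 : Real.exp (-(q1 : ℝ)) - Real.exp (-(q2 : ℝ)) ≤ D * (Real.exp (-lam) + 2 * η) := by
      have c1 : Real.exp (-(q2 : ℝ)) = Real.exp (-(q1 : ℝ)) * Real.exp (-D) := by
        rw [← Real.exp_add]
        congr 1
        rw [hD]
        ring
      have c2 := Real.add_one_le_exp (-D)
      have c3 : Real.exp (-(q1 : ℝ)) ≤ Real.exp (-lam) + 2 * η := by
        have d1 : Real.exp (-(q1 : ℝ)) ≤ Real.exp (-lam) * Real.exp η := by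
          rw [← Real.exp_add]
          exact Real.exp_le_exp.2 (by linarith)
        have d2 : Real.exp η ≤ 1 + 2 * η := by
          have := Real.abs_exp_sub_one_sub_id_le (show |η| ≤ 1 by rw [abs_of_pos hη0]; exact hη1)
          have := (abs_le.1 this).2
          nlinarith
        have d3 : Real.exp (-lam) * Real.exp η ≤ Real.exp (-lam) * (1 + 2 * η) := mul_le_mul_of_nonneg_left d2 hE0.le
        nlinarith
      have c4 : 0 < Real.exp (-(q1 : ℝ)) := Real.exp_pos _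
      rw [c1]
      nlinarith
    have b6 := (abs_le.1 k1).2
    have b7 := (abs_le.1 k2).1
    have b8 : (EmR R H1 N : ℝ) - EmR R H2 N ≤ (D * (Real.exp (-lam) + 2 * η) + 2 * (η * D)) * N := by
      have := mul_le_mul_of_nonneg_right b5 hN0.le
      linarith
    obtain ⟨X, hX⟩ : ∃ X, X = Real.exp (-lam) + 4 * η := ⟨_, rfl⟩
    have hX0 : 0 < X := by rw [hX]; positivity
    have hX5 : X ≤ 5 := by rw [hX]; linarith
    have hk0 : 0 < (k : ℝ) := by
      have : 0 < 1 / η := by positivity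
      linarith
    have b9 : (k : ℝ) * (LR R H2 N - 1) ≤ D * X * N := by
      have : D * X * N = (D * (Real.exp (-lam) + 2 * η) + 2 * (η * D)) * N := by rw [hX]; ring
      rw [this]
      linarith
    have b10 : (LR R H2 N : ℝ) - 1 ≤ (X + 5 * η) * G := by
      have c1 : D * X * N ≤ k * ((X + 5 * η) * G) := by
        have c2 : D * X * N = (D * ℓ) * X * G := by rw [hGN]; ring
        rw [c2]
        have c3 : (D * ℓ - 1) * (X + 5 * η) ≤ k * (X + 5 * η) := mul_le_mul_of_nonneg_right b2 (by positivity)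
        have c4 : (D * ℓ) * X ≤ (D * ℓ - 1) * (X + 5 * η) := by
          have : 1 ≤ η * (D * ℓ - 1) := by
            have : η * (1 / η) ≤ η * (D * ℓ - 1) := mul_le_mul_of_nonneg_left (by linarith) hη0.le
            rwa [mul_one_div_cancel hη0.ne'] at this
          nlinarith
        calc (D * ℓ) * X * G ≤ (k * (X + 5 * η)) * G := mul_le_mul_of_nonneg_right (c4.trans c3) hG0.le
          _ = _ := by ring
      exact le_of_mul_le_mul_left (b9.trans c1) hk0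
    have b13 : (X + 5 * η) * G = Real.exp (-lam) * G + 9 * η * G := by rw [hX]; ring
    have b14 : 10 * η * G ≤ ε * G := mul_le_mul_of_nonneg_right (by linarith) hG0.le
    linarith

end det

end Pool.Agent.T2H62.MT
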