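import Pool.Agent.T2H62.MT.A
import Pool.Agent.T2H62.MG.G

set_option autoImplicit false

/-! # Independent events with a general scale: the long empty windows and the moments of the gaps -/

namespace Pool.Agent.T2H62.MT

open Finset Filter Topology MeasureTheory ProbabilityTheory
open Pool.Agent.T2H62.MD
open Pool.Agent.T2H53.GW
open Pool.Agent.T2H62.MM (tlog)
open Pool.Agent.T2H62.MG (tiny gp gp_iff GT GT_LR LR_tail moments)
open Pool.Agent.T2H62.ME (Em mem_Em indep_compl EmR LR LR_anti sum_up)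

section ae

variable {Ω : Type*} [MeasurableSpace Ω] {μ : Measure Ω} [IsProbabilityMeasure μ] {S : ℕ → Set Ω}

theorem mean_tail_s (hm : ∀ n, MeasurableSet (S n)) (hi : iIndepSet S μ) (s : ℕ → ℝ) (B K : ℕ)
    (hF : ∀ᶠ N : ℕ in atTop, ∀ H : ℕ, s N ≤ H → (H : ℝ) ≤ Real.log N ^ B →
      (((Ioc N (2 * N)).filter (fun n => Mq μ S H n < 1 / 2 * (H / s N))).card : ℝ) ≤ N / Real.log N ^ K) :
    ∀ᶠ N : ℕ in atTop, ∀ H : ℕ, s N ≤ H → (H : ℝ) ≤ Real.log N ^ B →
    ∑ n ∈ Ioc N (2 * N), μ.real (Em S H n) ≤ N * Real.exp (-(1 / 2 * (H / s N))) + N / Real.log N ^ K := by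
  classical
  filter_upwards [hF] with N h1 H hH1 hH2
  have h2 := h1 H hH1 hH2
  have h3 : ∀ n ∈ Ioc N (2 * N), μ.real (Em S H n) ≤ Real.exp (-(1 / 2 * (H / s N))) +
      if Mq μ S H n < 1 / 2 * (H / s N) then 1 else 0 := by
    intro n _
    split_ifs with h4
    · have := measureReal_le_one (μ := μ) (s := Em S H n)
      have := Real.exp_pos (-(1 / 2 * ((H : ℝ) / s N)))
      linarith
    · rw [add_zero, prob_Em_s hm hi]
      push Not at h4
      calc ∏ h ∈ Icc 1 H, (1 - μ.real (S (n + h))) ≤ Real.exp (-(Mq μ S H n)) := by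
            unfold Mq
            rw [← sum_neg_distrib, Real.exp_sum]
            apply Finset.prod_le_prod
            · intro i _
              have := measureReal_le_one (μ := μ) (s := S (n + i))
              linarith
            · intro i _
              have := Real.add_one_le_exp (-(μ.real (S (n + i))))
              linarith
        _ ≤ _ := Real.exp_le_exp.2 (by linarith)
  refine (sum_le_sum h3).trans ?_
  rw [sum_add_distrib, sum_const, Nat.card_Ioc, nsmul_eq_mul, ← sum_filter, sum_const, nsmul_eq_mul, mul_one]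
  have e1 : 2 * N - N = N := by omega
  rw [e1]
  linarith

/-- **almost surely, few long empty windows** -/
theorem emp_tail_s (hm : ∀ n, MeasurableSet (S n)) (hi : iIndepSet S μ) (s : ℕ → ℝ) (B K : ℕ)
    (hF : ∀ᶠ N : ℕ in atTop, ∀ H : ℕ, s N ≤ H → (H : ℝ) ≤ Real.log N ^ B →
      (((Ioc N (2 * N)).filter (fun n => Mq μ S H n < 1 / 2 * (H / s N))).card : ℝ) ≤ N / Real.log N ^ K) :
    ∀ᵐ ω ∂μ, ∀ᶠ N : ℕ in atTop, ∀ H : ℕ, s N ≤ H → (H : ℝ) ≤ Real.log N ^ B →
      cnt (Ioc N (2 * N)) (Em S H) ω ≤ N * Real.exp (-(1 / 2 * (H / s N))) + 2 * (N / Real.log N ^ K) := by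
  classical
  obtain ⟨E, hE⟩ : ∃ E : ℕ → ℕ → Set Ω, E = fun N H : ℕ =>
      {ω | ((H : ℝ) + 1) * (N / (Real.log N ^ K * ((H : ℝ) + 1))) < |cnt (Ioc N (2 * N)) (Em S H) ω - ∑ n ∈ Ioc N (2 * N), μ.real (Em S H n)|} := ⟨_, rfl⟩
  obtain ⟨Bd, hBd⟩ : ∃ Bd : ℕ → Set Ω, Bd = fun N : ℕ => ⋃ H ∈ range (⌊Real.log (N : ℝ) ^ B⌋₊ + 1), E N H := ⟨_, rfl⟩
  have hprob : ∀ᶠ N : ℕ in atTop, μ.real (Bd N) ≤ 1 / (N : ℝ) ^ 2 := by
    filter_upwards [tiny B K, tlog.eventually_ge_atTop 1, eventually_ge_atTop 3] with N h1 h2 h3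
    have hN0 : (0 : ℝ) < N := by exact_mod_cast (by omega : 0 < N)
    have hL0 : 0 < Real.log (N : ℝ) := by linarith
    have h4 : ∀ H ∈ range (⌊Real.log (N : ℝ) ^ B⌋₊ + 1), μ.real (E N H) ≤
        1 / (N : ℝ) ^ 2 / (Real.log N ^ B + 1) := by
      intro H hH
      rw [mem_range] at hH
      have hH2 : (H : ℝ) ≤ Real.log N ^ B := by
        have : (H : ℝ) ≤ (⌊Real.log (N : ℝ) ^ B⌋₊ : ℕ) := by exact_mod_cast (by omega : H ≤ ⌊Real.log (N : ℝ) ^ B⌋₊)
        exact this.trans (Nat.floor_le (by positivity))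
      have hH0 : (0 : ℝ) < (H : ℝ) + 1 := by positivity
      obtain ⟨t, ht⟩ : ∃ t : ℝ, t = N / (Real.log N ^ K * ((H : ℝ) + 1)) := ⟨_, rfl⟩
      have ht0 : 0 < t := by rw [ht]; positivity
      have htN : t ≤ N := by
        rw [ht, div_le_iff₀ (by positivity)]
        have b1 : (1 : ℝ) ≤ Real.log N ^ K := one_le_pow₀ h2
        have b2 : (1 : ℝ) ≤ (H : ℝ) + 1 := by
          have : (0 : ℝ) ≤ H := Nat.cast_nonneg _
          linarith
        have b3 : (1 : ℝ) ≤ Real.log N ^ K * ((H : ℝ) + 1) := one_le_mul_of_one_le_of_one_le b1 b2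
        exact le_mul_of_one_le_right hN0.le b3
      have hmean : ∑ n ∈ Ioc N (2 * N), μ.real (Fh (fun n => (S n)ᶜ) (Icc 1 H) n) ≤ N := by
        calc ∑ n ∈ Ioc N (2 * N), μ.real (Fh (fun n => (S n)ᶜ) (Icc 1 H) n) ≤ ∑ n ∈ Ioc N (2 * N), (1 : ℝ) :=
              sum_le_sum fun n _ => measureReal_le_one
          _ = N := by
              rw [sum_const, Nat.card_Ioc, nsmul_eq_mul]
              have : 2 * N - N = N := by omega
              rw [this, mul_one]
      have h5 := dev_prob (μ := μ) (S := fun n => (S n)ᶜ) (fun n => (hm n).compl) (indep_compl hi) (Icc 1 H) H (Subset.refl _) N (2 * N) N t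
        hmean ht0.le htN hN0
      have h6 := h1 H hH2
      rw [← ht] at h6
      rw [hE, le_div_iff₀ (by positivity), mul_comm]
      refine le_trans ?_ h6
      apply mul_le_mul_of_nonneg_left _ (by positivity)
      subst ht
      exact h5
    rw [hBd]
    refine (measureReal_biUnion_finset_le _ _).trans ((sum_le_sum h4).trans ?_)
    rw [sum_const, card_range, nsmul_eq_mul, mul_div_assoc', div_le_iff₀ (by positivity), mul_comm]
    apply mul_le_mul_of_nonneg_left _ (by positivity)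
    push_cast
    have : ((⌊Real.log (N : ℝ) ^ B⌋₊ : ℕ) : ℝ) ≤ Real.log N ^ B := Nat.floor_le (by positivity)
    linarith
  obtain ⟨n₀, hn₀⟩ := eventually_atTop.1 hprob
  have hsum : Summable (fun N : ℕ => 1 / (N : ℝ) ^ 2) := Real.summable_one_div_nat_pow.2 (by norm_num)
  have h2 := bc (μ := μ) Bd n₀ _ hsum (fun n hn => hn₀ n hn)
  filter_upwards [h2] with ω hω
  filter_upwards [hω, mean_tail_s hm hi s B K hF, tlog.eventually_ge_atTop 1] with N hN hN2 hN3 H hH1 hH2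
  have hL0 : 0 < Real.log (N : ℝ) := by linarith
  rw [hBd, hE] at hN
  simp only [Set.mem_iUnion, not_exists] at hN
  have h3 := hN H (by
    rw [mem_range]
    have := Nat.le_floor hH2
    omega)
  have h4 : |cnt (Ioc N (2 * N)) (Em S H) ω - ∑ n ∈ Ioc N (2 * N), μ.real (Em S H n)| ≤ ((H : ℝ) + 1) * (N / (Real.log N ^ K * ((H : ℝ) + 1))) := by
    by_contra h5
    push Not at h5
    exact h3 h5
  have e1 : ((H : ℝ) + 1) * (N / (Real.log N ^ K * ((H : ℝ) + 1))) = N / Real.log N ^ K := by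
    have : (0 : ℝ) < (H : ℝ) + 1 := by positivity
    field_simp
  rw [e1] at h4
  have h5 := (abs_le.1 h4).2
  have h6 := hN2 H hH1 hH2
  linarith

end ae

section det

variable {R : Set ℕ} [DecidablePred (· ∈ R)]

/-- the bound for the long gaps -/
theorem tail_det_s (hR : ∀ a : ℕ, ∃ n, a < n ∧ n ∈ R) (j : ℕ) (s : ℕ → ℝ) (hst : Tendsto s atTop atTop)
    (B C : ℕ) (hsB : ∀ᶠ N : ℕ in atTop, s N ≤ Real.log N ^ B)
    (hcard : ∀ ε : ℝ, 0 < ε → ∀ᶠ N : ℕ in atTop,
        |(((Ioc N (2 * N)).filter (fun n => n ∈ R)).card : ℝ) - N / s N| ≤ ε * (N / s N))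
    (hgap : ∀ᶠ N : ℕ in atTop, ∃ n ∈ Ioc N (N + ⌊Real.log N ^ C⌋₊), n ∈ R)
    (hem : ∀ᶠ N : ℕ in atTop, ∀ H : ℕ, s N ≤ H → (H : ℝ) ≤ Real.log N ^ (C + 1) →
      (EmR R H N : ℝ) ≤ N * Real.exp (-(1 / 2 * (H / s N))) + 2 * (N / Real.log N ^ ((C + 1) * (j + 2)))) :
    ∀ᶠ N : ℕ in atTop, ∀ lam : ℝ, 0 < lam →
      GT R (lam * s N) N * (s N / N) ≤ (2 * 5 ^ (j + 2) + ((j + 2).factorial + 3) * 10 ^ (j + 2)) / (1 + lam) ^ (j + 2) := by
  classical
  filter_upwards [hcard 1 one_pos, eventually_forall_ge_atTop.2 hgap, hem, tlog.eventually_ge_atTop (2 ^ C + 8), eventually_ge_atTop 3,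
    log_pow_small ((C + 1) * (j + 2) + B) 1 1 one_pos one_pos, hst.eventually_ge_atTop 8, hsB] with N h1 h2 h3 h4 h5 h6 hs8 hsB' lam hlam
  obtain ⟨Y, hY⟩ : ∃ Y, Y = Real.log (N : ℝ) := ⟨_, rfl⟩
  obtain ⟨L, hL⟩ : ∃ L, L = s N := ⟨_, rfl⟩
  rw [← hL] at h1 h3 hs8 hsB' ⊢
  rw [← hY] at h3 h4 h6 hsB'
  have hL0 : 0 < L := by linarith
  have hC1 : (1 : ℝ) ≤ 2 ^ C := one_le_pow₀ (by norm_num)
  have hY0 : 0 < Y := by linarith
  have hY1 : 1 ≤ Y := by linarith
  have hN0 : (0 : ℝ) < N := by exact_mod_cast (by omega : 0 < N)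
  have hfac : (0 : ℝ) < ((j + 2).factorial : ℝ) := by exact_mod_cast Nat.factorial_pos _
  rw [le_div_iff₀ (by positivity)]
  rcases le_or_gt lam 4 with h7 | h7
  · -- small values
    have h8 : GT R (lam * L) N ≤ 2 * (N / L) := by
      have b1 : GT R (lam * L) N ≤ ((Ioc N (2 * N)).filter (fun n => n ∈ R)).card := by
        unfold GT
        calc ∑ r ∈ (Ioc N (2 * N)).filter (fun r => r ∈ R), (if lam * L < (gp R r : ℝ) then (1 : ℝ) else 0) ≤
              ∑ r ∈ (Ioc N (2 * N)).filter (fun r => r ∈ R), (1 : ℝ) := by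
              apply sum_le_sum
              intro r _
              split_ifs <;> norm_num
          _ = _ := by rw [sum_const, nsmul_eq_mul, mul_one]
      have b2 := (abs_le.1 h1).2
      linarith
    have h9 : GT R (lam * L) N * (L / N) ≤ 2 := by
      calc GT R (lam * L) N * (L / N) ≤ 2 * (N / L) * (L / N) := mul_le_mul_of_nonneg_right h8 (by positivity)
        _ = 2 := by field_simp
    have h10 : (1 + lam) ^ (j + 2) ≤ 5 ^ (j + 2) := pow_le_pow_left₀ (by positivity) (by linarith) _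
    calc GT R (lam * L) N * (L / N) * (1 + lam) ^ (j + 2) ≤ 2 * 5 ^ (j + 2) := mul_le_mul h9 h10 (by positivity) (by norm_num)
      _ ≤ _ := by
          have : 0 ≤ ((((j + 2).factorial : ℝ)) + 3) * 10 ^ (j + 2) := by positivity
          linarith
  rcases le_or_gt (lam * L) ((2 * Y) ^ C) with h8 | h8
  · -- medium values
    obtain ⟨H, hH⟩ : ∃ H, H = ⌊lam * L⌋₊ := ⟨_, rfl⟩
    obtain ⟨k, hk⟩ : ∃ k, k = H / 2 := ⟨_, rfl⟩
    have hlL : 32 ≤ lam * L := by nlinarith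
    have hH1 : lam * L < H + 1 := by rw [hH]; exact Nat.lt_floor_add_one _
    have hH2 : (H : ℝ) ≤ lam * L := by rw [hH]; exact Nat.floor_le (by positivity)
    have hH3 : 2 ≤ H := by
      have : (2 : ℝ) ≤ H := by linarith
      exact_mod_cast this
    have hk1 : (H : ℝ) ≤ 2 * k + 1 := by exact_mod_cast (by omega : H ≤ 2 * k + 1)
    have hk2 : (k : ℝ) ≤ H := by exact_mod_cast (by omega : k ≤ H)
    have hk3 : lam * L / 4 ≤ k := by linarith
    have hk4 : L ≤ k := by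
      have : 4 * L ≤ lam * L := mul_le_mul_of_nonneg_right h7.le hL0.le
      linarith
    have hlY : lam * L ≤ Y ^ (C + 1) := by
      calc lam * L ≤ (2 * Y) ^ C := h8
        _ = 2 ^ C * Y ^ C := mul_pow _ _ _
        _ ≤ Y * Y ^ C := mul_le_mul_of_nonneg_right (by linarith) (by positivity)
        _ = Y ^ (C + 1) := by ring
    have hk5 : (k : ℝ) ≤ Y ^ (C + 1) := (hk2.trans hH2).trans hlY
    have hk0 : (0 : ℝ) < k := by linarith
    have b1 := LR_tail (R := R) H N (by omega) hH3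
    rw [← hk] at b1
    have b2 := h3 k hk4 hk5
    have b3 : Real.exp (-(1 / 2 * ((k : ℝ) / L))) ≤ Real.exp (-(lam / 8)) := by
      apply Real.exp_le_exp.2
      have : lam / 4 ≤ (k : ℝ) / L := by
        rw [le_div_iff₀ hL0]
        linarith
      linarith
    rw [GT_LR hR _ (by positivity), ← hH]
    obtain ⟨X, hX⟩ : ∃ X, X = Real.exp (-(lam / 8)) + 2 / Y ^ ((C + 1) * (j + 2)) := ⟨_, rfl⟩
    have b4 : (EmR R k N : ℝ) ≤ N * X := by
      rw [hX, mul_add]
      refine b2.trans (add_le_add (mul_le_mul_of_nonneg_left b3 hN0.le) ?_)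
      apply le_of_eq
      ring
    have hX0 : 0 < X := by rw [hX]; positivity
    have b5 : (EmR R k N : ℝ) / k ≤ N * X / L := by
      exact div_le_div₀ (by positivity) b4 hL0 hk4
    have b6 : (LR R H N : ℝ) * (L / N) ≤ X + L / N := by
      calc (LR R H N : ℝ) * (L / N) ≤ (N * X / L + 1) * (L / N) := mul_le_mul_of_nonneg_right (by linarith) (by positivity)
        _ = X + L / N := by field_simp
    have b7 : L / N ≤ 1 / Y ^ ((C + 1) * (j + 2)) := by
      rw [one_mul, Real.rpow_one] at h6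
      rw [div_le_div_iff₀ hN0 (by positivity), one_mul]
      refine le_trans ?_ h6
      rw [pow_add, mul_comm]
      exact mul_le_mul_of_nonneg_left hsB' (by positivity)
    have b8 : (lam / 8) ^ (j + 2) ≤ Y ^ ((C + 1) * (j + 2)) := by
      rw [pow_mul]
      apply pow_le_pow_left₀ (by positivity)
      have : lam * 1 ≤ lam * L := mul_le_mul_of_nonneg_left (by linarith) hlam.le
      linarith
    have b9 : Real.exp (-(lam / 8)) ≤ (j + 2).factorial / (lam / 8) ^ (j + 2) := by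
      have c1 := Real.pow_div_factorial_le_exp (lam / 8) (by positivity) (j + 2)
      rw [Real.exp_neg, inv_le_comm₀ (Real.exp_pos _) (by positivity), inv_div]
      exact c1
    have b10 : X + L / N ≤ ((j + 2).factorial + 3) / (lam / 8) ^ (j + 2) := by
      have c1 : 3 / Y ^ ((C + 1) * (j + 2)) ≤ 3 / (lam / 8) ^ (j + 2) := div_le_div_of_nonneg_left (by norm_num) (by positivity) b8
      have c2 : 2 / Y ^ ((C + 1) * (j + 2)) + 1 / Y ^ ((C + 1) * (j + 2)) = 3 / Y ^ ((C + 1) * (j + 2)) := by ring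
      rw [hX, add_div]
      linarith
    have b11 : (1 + lam) ^ (j + 2) ≤ (10 * (lam / 8)) ^ (j + 2) := pow_le_pow_left₀ (by positivity) (by linarith) _
    calc (LR R H N : ℝ) * (L / N) * (1 + lam) ^ (j + 2) ≤ ((j + 2).factorial + 3) / (lam / 8) ^ (j + 2) * (10 * (lam / 8)) ^ (j + 2) := by
          apply mul_le_mul (b6.trans b10) b11 (by positivity) (by positivity)
      _ = ((j + 2).factorial + 3) * 10 ^ (j + 2) := by
          rw [mul_pow]
          field_simp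
      _ ≤ _ := by
          have : (0 : ℝ) ≤ 2 * 5 ^ (j + 2) := by positivity
          linarith
  · -- large values
    have h9 : GT R (lam * L) N = 0 := by
      unfold GT
      apply sum_eq_zero
      intro r hr
      rw [mem_filter, mem_Ioc] at hr
      rw [if_neg]
      push Not
      obtain ⟨n, hn1, hn2⟩ := h2 r hr.1.1.le
      rw [mem_Ioc] at hn1
      have h10 : gp R r ≤ n - r := by
        apply Nat.sInf_le
        refine ⟨by omega, ?_⟩
        have : r + (n - r) = n := by omega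
        rw [this]
        exact hn2
      have h11 : gp R r ≤ ⌊Real.log (r : ℝ) ^ C⌋₊ := by omega
      have hr0 : (0 : ℝ) < r := by exact_mod_cast (by omega : 0 < r)
      have hlr0 : 0 ≤ Real.log (r : ℝ) := Real.log_nonneg (by exact_mod_cast (by omega : 1 ≤ r))
      have hlr : Real.log (r : ℝ) ≤ 2 * Y := by
        have b1 : (r : ℝ) ≤ 2 * N := by exact_mod_cast hr.1.2
        have b2 := Real.log_le_log hr0 b1
        rw [Real.log_mul (by norm_num) hN0.ne', ← hY] at b2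
        have := Real.log_two_lt_d9
        linarith
      calc (gp R r : ℝ) ≤ (⌊Real.log (r : ℝ) ^ C⌋₊ : ℕ) := by exact_mod_cast h11
        _ ≤ Real.log (r : ℝ) ^ C := Nat.floor_le (by positivity)
        _ ≤ (2 * Y) ^ C := pow_le_pow_left₀ hlr0 hlr _
        _ ≤ _ := h8.le
    rw [h9, zero_mul, zero_mul]
    positivity

end det

variable {Ω : Type*} [MeasurableSpace Ω] {μ : Measure Ω} [IsProbabilityMeasure μ] {S : ℕ → Set Ω}

/-- **all moments of the gaps**, general scale -/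
theorem moments_ae_s (hm : ∀ n, MeasurableSet (S n)) (hi : iIndepSet S μ) (s : ℕ → ℝ) (hst : Tendsto s atTop atTop)
    (B C : ℕ) (hsB : ∀ᶠ N : ℕ in atTop, s N ≤ Real.log N ^ B)
    (hq : ∀ w : ℝ, 0 < w → ∀ᶠ n : ℕ in atTop, μ.real (S n) ≤ w)
    (hW : ∀ lam : ℝ, 0 < lam → ∀ δ : ℝ, 0 < δ → ∀ᶠ N : ℕ in atTop,
      (((Ioc N (2 * N)).filter (fun n => δ < |Mq μ S ⌊lam * s N⌋₊ n - lam|)).card : ℝ) ≤ δ * N)
    (hF : ∀ K : ℕ, ∀ᶠ N : ℕ in atTop, ∀ H : ℕ, s N ≤ H → (H : ℝ) ≤ Real.log N ^ (C + 1) →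
      (((Ioc N (2 * N)).filter (fun n => Mq μ S H n < 1 / 2 * (H / s N))).card : ℝ) ≤ N / Real.log N ^ K)
    (hcard : ∀ᵐ ω ∂μ, ∀ R : Set ℕ, ∀ _ : DecidablePred (· ∈ R), R = {n | ω ∈ S n} → ∀ ε : ℝ, 0 < ε → ∀ᶠ N : ℕ in atTop,
        |(((Ioc N (2 * N)).filter (fun n => n ∈ R)).card : ℝ) - N / s N| ≤ ε * (N / s N))
    (hgap : ∀ᵐ ω ∂μ, ∀ᶠ N : ℕ in atTop, ∃ n ∈ Ioc N (N + ⌊Real.log N ^ C⌋₊), ω ∈ S n) :
    ∀ᵐ ω ∂μ, ∀ R : Set ℕ, ∀ _ : DecidablePred (· ∈ R), R = {n | ω ∈ S n} → (∀ a : ℕ, ∃ n, a < n ∧ n ∈ R) ∧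
      (∀ lam : ℝ, 0 < lam → ∀ ε : ℝ, 0 < ε → ∀ᶠ N : ℕ in atTop,
        |(LR R ⌊lam * s N⌋₊ N : ℝ) - Real.exp (-lam) * (N / s N)| ≤ ε * (N / s N)) ∧ ∀ k : ℕ,
      Tendsto (fun N : ℕ => (∑ r ∈ (Ioc N (2 * N)).filter (fun r => r ∈ R), ((gp R r : ℝ) / s N) ^ k) * (s N / N))
        atTop (𝓝 (k.factorial : ℝ)) := by
  classical
  have hae : ∀ᵐ ω ∂μ, ∀ j : ℕ, ∀ᶠ N : ℕ in atTop, ∀ H : ℕ, s N ≤ H → (H : ℝ) ≤ Real.log N ^ (C + 1) →
      cnt (Ioc N (2 * N)) (Em S H) ω ≤ N * Real.exp (-(1 / 2 * (H / s N))) + 2 * (N / Real.log N ^ ((C + 1) * (j + 2))) :=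
    ae_all_iff.2 fun j => emp_tail_s hm hi s (C + 1) ((C + 1) * (j + 2)) (hF _)
  filter_upwards [em_all_s hm hi s hst B hsB hq hW, hae, hcard, hgap] with ω h1 h2 h3 h4 R hdec hR
  have hlaw : ∀ lam : ℝ, 0 < lam → ∀ ε : ℝ, 0 < ε → ∀ᶠ N : ℕ in atTop,
      |(LR R ⌊lam * s N⌋₊ N : ℝ) - Real.exp (-lam) * (N / s N)| ≤ ε * (N / s N) := fun lam hl ε hε =>
    law_det_s R s hst B hsB (h1 R hdec hR) lam hl ε hε
  have hcard' := h3 R hdec hR
  have hgap' : ∀ᶠ N : ℕ in atTop, ∃ n ∈ Ioc N (N + ⌊Real.log N ^ C⌋₊), n ∈ R := by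
    rw [hR]
    exact h4
  have hunb : ∀ a : ℕ, ∃ n, a < n ∧ n ∈ R := by
    intro a
    obtain ⟨n₀, hn₀⟩ := eventually_atTop.1 hgap'
    obtain ⟨n, hn, hnR⟩ := hn₀ (a + n₀) (by omega)
    rw [mem_Ioc] at hn
    exact ⟨n, by omega, hnR⟩
  refine ⟨hunb, hlaw, fun k => ?_⟩
  rcases k with _ | j
  · -- the number of the elements
    rw [Metric.tendsto_atTop]
    intro ε hε
    obtain ⟨n₀, hn₀⟩ := eventually_atTop.1 (hcard' (ε / 2) (by positivity))
    obtain ⟨n₁, hn₁⟩ := eventually_atTop.1 (hst.eventually_gt_atTop 0)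
    refine ⟨n₀ + n₁ + 3, fun N hN => ?_⟩
    have h4 := hn₀ N (by omega)
    have hN0 : (0 : ℝ) < N := by exact_mod_cast (by omega : 0 < N)
    have hl : 0 < s N := hn₁ N (by omega)
    simp only [pow_zero, sum_const, nsmul_eq_mul, mul_one, Nat.factorial_zero, Nat.cast_one]
    rw [Real.dist_eq, show (((Ioc N (2 * N)).filter (fun n => n ∈ R)).card : ℝ) * (s N / N) - 1 =
      ((((Ioc N (2 * N)).filter (fun n => n ∈ R)).card : ℝ) - N / s N) * (s N / N) by field_simp, abs_mul,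
      abs_of_pos (show 0 < s N / N by positivity)]
    calc |(((Ioc N (2 * N)).filter (fun n => n ∈ R)).card : ℝ) - N / s N| * (s N / N) ≤
          ε / 2 * (N / s N) * (s N / N) := mul_le_mul_of_nonneg_right h4 (by positivity)
      _ = ε / 2 := by field_simp
      _ < ε := by linarith
  · have hem : ∀ᶠ N : ℕ in atTop, ∀ H : ℕ, s N ≤ H → (H : ℝ) ≤ Real.log N ^ (C + 1) →
        (EmR R H N : ℝ) ≤ N * Real.exp (-(1 / 2 * (H / s N))) + 2 * (N / Real.log N ^ ((C + 1) * (j + 2))) := by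
      filter_upwards [h2 j] with N h3 H h4 h5
      have h6 : cnt (Ioc N (2 * N)) (Em S H) ω = (EmR R H N : ℝ) := by
        rw [cnt_eq]
        unfold EmR
        congr 2
        apply filter_congr
        intro n _
        rw [mem_Em, hR]
        rfl
      rw [← h6]
      exact h3 H h4 h5
    apply moments s (hst.eventually_gt_atTop 0) j _ _ (tail_det_s hunb j s hst B C hsB hcard' hgap' hem)
    intro lam hlam
    rw [Metric.tendsto_atTop]
    intro ε hε
    obtain ⟨n₀, hn₀⟩ := eventually_atTop.1 (hlaw lam hlam (ε / 2) (by positivity))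
    obtain ⟨n₁, hn₁⟩ := eventually_atTop.1 (hst.eventually_gt_atTop 0)
    refine ⟨n₀ + n₁ + 3, fun N hN => ?_⟩
    have h4 := hn₀ N (by omega)
    have hN0 : (0 : ℝ) < N := by exact_mod_cast (by omega : 0 < N)
    have hl : 0 < s N := hn₁ N (by omega)
    rw [GT_LR hunb _ (by positivity), Real.dist_eq,
      show (LR R ⌊lam * s N⌋₊ N : ℝ) * (s N / N) - Real.exp (-lam) =
      ((LR R ⌊lam * s N⌋₊ N : ℝ) - Real.exp (-lam) * (N / s N)) * (s N / N) by field_simp, abs_mul,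
      abs_of_pos (show 0 < s N / N by positivity)]
    calc |(LR R ⌊lam * s N⌋₊ N : ℝ) - Real.exp (-lam) * (N / s N)| * (s N / N) ≤
          ε / 2 * (N / s N) * (s N / N) := mul_le_mul_of_nonneg_right h4 (by positivity)
      _ = ε / 2 := by field_simp
      _ < ε := by linarith

end Pool.Agent.T2H62.MT
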