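import Pool.Agent.T2H62.MT.C

set_option autoImplicit false

/-! # The mean number of twins in short windows -/

namespace Pool.Agent.T2H62.MT

open Finset Filter Topology MeasureTheory ProbabilityTheory
open Pool.Agent.T2H62.MD
open Pool.Agent.T2H53.GW
open Pool.Agent.T2H62.MM (tlog)
open Pool.Agent.T2H62.MG (ind ind_bd WS Rq Bad bad_few za zb za_tendsto za_zb zb_le VV_ab log4_ratio pr_hi pr_lo)
open Pool.Agent.T2H62.ME (PP PP_eq PP_nonneg)
open Pool.Agent.H305R2 (VV)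

/-- the partial products of the singular series of the twins -/
noncomputable def SG (z : ℕ) : ℝ := VV z ^ 2 * PP z 2

theorem nu13 (p : ℕ) (hp : p.Prime) : nu {1, 3} p < p := by
  unfold nu
  rcases Nat.lt_or_ge p 3 with h | h
  · have : p = 2 := by have := hp.two_le; omega
    rw [this]
    decide
  · exact lt_of_le_of_lt card_image_le (by simp; omega)

theorem SG_SS (z : ℕ) : SG z = SS {1, 3} z := by
  have h1 := PP_eq 1 2 z (by norm_num)
  have h2 : ({1, 1 + 2} : Finset ℕ) = {1, 3} := rfl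
  rw [h2] at h1
  rw [SS_eq, h1]
  unfold SG
  have h3 : ({1, 3} : Finset ℕ).card = 2 := by decide
  rw [h3, mul_comm]

theorem SG_lim : ∃ σ : ℝ, 0 < σ ∧ Tendsto SG atTop (𝓝 σ) := by
  obtain ⟨s, hs0, hs⟩ := SS_tendsto {1, 3} 3 (by decide) nu13
  exact ⟨s, hs0, hs.congr fun z => (SG_SS z).symm⟩

/-- the expected number of twins in the window -/
noncomputable def Q2 (A : ℝ) (H n : ℕ) : ℝ := ∑ a ∈ Icc 1 H, pr A (n + a) * pr A (n + a + 2)

theorem Q2_hi {A : ℝ} (hA : 0 < A) (N n H : ℕ) (hN : 3 ≤ N) (h1 : N < n) (h2 : n ≤ 2 * N) (hH : H ≤ N) :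
    Q2 A H n ≤ (VV (zb A N) / Real.log N) ^ 2 * WS (Rq (za A N)) 2 H n := by
  unfold Q2 WS
  rw [mul_sum]
  apply sum_le_sum
  intro a ha
  rw [mem_Icc] at ha
  have b1 := pr_hi hA N (n + a) hN (by omega) (by omega)
  have b2 := pr_hi hA N (n + a + 2) hN (by omega) (by omega)
  have hl : 0 < Real.log (N : ℝ) := Real.log_pos (by exact_mod_cast (by omega : 1 < N))
  have hV : 0 ≤ VV (zb A N) / Real.log N := by have := one_le_VV (zb A N); positivity
  calc pr A (n + a) * pr A (n + a + 2) ≤ (VV (zb A N) / Real.log N * ind (Rq (za A N) (n + a))) *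
        (VV (zb A N) / Real.log N * ind (Rq (za A N) (n + a + 2))) :=
        mul_le_mul b1 b2 (pr_nonneg A _) (mul_nonneg hV (ind_bd _).1)
    _ = _ := by ring

theorem Q2_lo {A : ℝ} (hA : 0 < A) : ∃ a₀ : ℕ, 3 ≤ a₀ ∧ ∀ N n H : ℕ, a₀ ≤ N → N < n → n ≤ 2 * N → H ≤ N →
    (VV (za A N) / Real.log (4 * N)) ^ 2 * WS (Rq (zb A N)) 2 H n ≤ Q2 A H n := by
  obtain ⟨a₀, h0, hpr⟩ := pr_lo hA
  refine ⟨a₀, h0, fun N n H hN h1 h2 hH => ?_⟩
  unfold Q2 WS
  rw [mul_sum]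
  apply sum_le_sum
  intro a ha
  rw [mem_Icc] at ha
  have b1 := hpr N (n + a) hN (by omega) (by omega)
  have b2 := hpr N (n + a + 2) hN (by omega) (by omega)
  have hN3 : (3 : ℝ) ≤ N := by exact_mod_cast (h0.trans hN)
  have hl : 0 < Real.log (4 * (N : ℝ)) := Real.log_pos (by linarith)
  have hV : 0 ≤ VV (za A N) / Real.log (4 * N) := by have := one_le_VV (za A N); positivity
  calc (VV (za A N) / Real.log (4 * N)) ^ 2 * (ind (Rq (zb A N) (n + a)) * ind (Rq (zb A N) (n + a + 2))) =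
        (VV (za A N) / Real.log (4 * N) * ind (Rq (zb A N) (n + a))) * (VV (za A N) / Real.log (4 * N) * ind (Rq (zb A N) (n + a + 2))) := by ring
    _ ≤ _ := mul_le_mul b1 b2 (mul_nonneg hV (ind_bd _).1) (pr_nonneg A _)

/-- upper coefficient -/
noncomputable def cU (A : ℝ) (N : ℕ) : ℝ := (VV (zb A N) / VV (za A N)) ^ 2 * SG (za A N)
/-- lower coefficient -/
noncomputable def cL (A : ℝ) (N : ℕ) : ℝ := ((VV (zb A N) / VV (za A N)) ^ 2)⁻¹ * ((Real.log (4 * (N : ℝ)) / Real.log N) ^ 2)⁻¹ * SG (zb A N)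

theorem zb_tendsto {A : ℝ} (hA : 0 < A) : Tendsto (zb A) atTop atTop :=
  tendsto_atTop_mono' _ (by
    filter_upwards [eventually_ge_atTop 1] with N h
    exact za_zb hA N h) (za_tendsto hA)

theorem cU_lim {A : ℝ} (hA : 0 < A) (σ : ℝ) (hSG : Tendsto SG atTop (𝓝 σ)) : Tendsto (cU A) atTop (𝓝 σ) := by
  have h1 := ((VV_ab hA).pow 2).mul (hSG.comp (za_tendsto hA))
  rw [one_pow, one_mul] at h1
  exact h1

theorem cL_lim {A : ℝ} (hA : 0 < A) (σ : ℝ) (hSG : Tendsto SG atTop (𝓝 σ)) : Tendsto (cL A) atTop (𝓝 σ) := by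
  have h1 := ((((VV_ab hA).pow 2).inv₀ (by norm_num)).mul ((log4_ratio.pow 2).inv₀ (by norm_num))).mul (hSG.comp (zb_tendsto hA))
  rw [one_pow, inv_one, one_mul, one_mul] at h1
  exact h1

theorem Q2_hi' {A : ℝ} (hA : 0 < A) (ε : ℝ) (N n H : ℕ) (hN : 3 ≤ N) (h1 : N < n) (h2 : n ≤ 2 * N) (hH : H ≤ N)
    (h3 : |WS (Rq (za A N)) 2 H n - H * PP (za A N) 2| ≤ ε * (H * PP (za A N) 2)) :
    Q2 A H n ≤ (1 + ε) * cU A N * (H / Real.log N ^ 2) := by
  have hl : 0 < Real.log (N : ℝ) := Real.log_pos (by exact_mod_cast (by omega : 1 < N))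
  have hV := one_le_VV (zb A N)
  have hVa : 0 < VV (za A N) := by linarith [one_le_VV (za A N)]
  have h4 : WS (Rq (za A N)) 2 H n ≤ (1 + ε) * (H * PP (za A N) 2) := by
    have := (abs_le.1 h3).2
    linarith
  refine (Q2_hi hA N n H hN h1 h2 hH).trans ((mul_le_mul_of_nonneg_left h4 (by positivity)).trans (le_of_eq ?_))
  unfold cU SG
  field_simp

theorem Q2_lo' {A : ℝ} (hA : 0 < A) : ∃ a₀ : ℕ, 3 ≤ a₀ ∧ ∀ (ε : ℝ) (N n H : ℕ), a₀ ≤ N → N < n → n ≤ 2 * N → H ≤ N →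
    |WS (Rq (zb A N)) 2 H n - H * PP (zb A N) 2| ≤ ε * (H * PP (zb A N) 2) →
    (1 - ε) * cL A N * (H / Real.log N ^ 2) ≤ Q2 A H n := by
  obtain ⟨a₀, h0, hpr⟩ := Q2_lo hA
  refine ⟨a₀, h0, fun ε N n H hN h1 h2 hH h3 => ?_⟩
  have hN3 : (3 : ℝ) ≤ N := by exact_mod_cast (h0.trans hN)
  have hl : 0 < Real.log (N : ℝ) := Real.log_pos (by linarith)
  have hl4 : 0 < Real.log (4 * (N : ℝ)) := Real.log_pos (by linarith)
  have hVa : 0 < VV (za A N) := by linarith [one_le_VV (za A N)]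
  have hVb : 0 < VV (zb A N) := by linarith [one_le_VV (zb A N)]
  have h4 : (1 - ε) * (H * PP (zb A N) 2) ≤ WS (Rq (zb A N)) 2 H n := by
    have := (abs_le.1 h3).1
    linarith
  refine le_trans (le_of_eq ?_) ((mul_le_mul_of_nonneg_left h4 (by positivity)).trans (hpr N n H hN h1 h2 hH))
  unfold cL SG
  field_simp

theorem bad_eq (Z h H : ℕ) (ε : ℝ) (a b : ℕ) :
    (((Ioc a b).filter (fun n => ε * (H * PP Z h) < |WS (Rq Z) h H n - H * PP Z h|)).card : ℝ) = (Bad Z h H ε a b : ℝ) := by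
  unfold Bad
  congr

/-- **most windows have the expected number of twins** -/
theorem few_two {A : ℝ} (hA : 0 < A) (σ : ℝ) (hσ : 0 < σ) (hSG : Tendsto SG atTop (𝓝 σ)) (lam : ℝ) (hl : 0 < lam) (δ : ℝ) (hδ : 0 < δ) :
    ∀ᶠ N : ℕ in atTop, (((Ioc N (2 * N)).filter (fun n => δ < |Q2 A ⌊lam * (Real.log N ^ 2 / σ)⌋₊ n - lam|)).card : ℝ) ≤ δ * N := by
  classical
  obtain ⟨ε, hε⟩ : ∃ ε, ε = min (1 / 2) (δ / (4 * lam)) := ⟨_, rfl⟩
  have hε0 : 0 < ε := by rw [hε]; exact lt_min (by norm_num) (by positivity)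
  have hεl : ε * lam ≤ δ / 4 := by
    have : ε ≤ δ / (4 * lam) := by rw [hε]; exact min_le_right _ _
    rw [le_div_iff₀ (by positivity)] at this
    linarith
  obtain ⟨a₀, ha₀, hlo⟩ := Q2_lo' hA
  have hU : ∀ᶠ N : ℕ in atTop, (1 + ε) * cU A N * (lam / σ) < lam + δ := by
    have h1 := ((cU_lim hA σ hSG).const_mul (1 + ε)).mul_const (lam / σ)
    apply h1.eventually_lt_const
    have e1 : (1 + ε) * σ * (lam / σ) = lam + ε * lam := by field_simp
    rw [e1]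
    linarith
  have hL : ∀ᶠ N : ℕ in atTop, lam - δ < (1 - ε) * cL A N * (lam / σ - 1 / Real.log N ^ 2) := by
    have h0 : Tendsto (fun N : ℕ => lam / σ - 1 / Real.log (N : ℝ) ^ 2) atTop (𝓝 (lam / σ - 0)) := by
      apply tendsto_const_nhds.sub
      exact Tendsto.const_div_atTop ((tendsto_pow_atTop (by norm_num)).comp tlog) 1
    have h1 := ((cL_lim hA σ hSG).const_mul (1 - ε)).mul h0
    apply h1.eventually_const_lt
    have e1 : (1 - ε) * σ * (lam / σ - 0) = lam - ε * lam := by field_simp; ring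
    rw [e1]
    linarith
  have hcU : ∀ᶠ N : ℕ in atTop, 0 < cU A N := (cU_lim hA σ hSG).eventually_const_lt hσ
  have hcL : ∀ᶠ N : ℕ in atTop, 0 < cL A N := (cL_lim hA σ hSG).eventually_const_lt hσ
  filter_upwards [bad_few (2 * A) (by positivity) 2 (dvd_refl 2) ε hε0 3 1, zb_le hA, hU, hL, hcU, hcL,
    eventually_ge_atTop a₀, log_pow_small 3 1 1 one_pos one_pos, tlog.eventually_ge_atTop (1 + lam / σ + 2 * σ / lam), tlog.eventually_ge_atTop (2 / δ)]
    with N h1 h2 hU hL hcU hcL h4 h5 h6 h7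
  obtain ⟨L, hLL⟩ : ∃ L, L = Real.log (N : ℝ) := ⟨_, rfl⟩
  obtain ⟨H, hH⟩ : ∃ H, H = ⌊lam * (Real.log (N : ℝ) ^ 2 / σ)⌋₊ := ⟨_, rfl⟩
  rw [← hH]
  rw [← hLL] at h1 h2 h5 h6 h7 hL hH
  have hN0 : (0 : ℝ) < N := by exact_mod_cast (by omega : 0 < N)
  have c0 : 0 < lam / σ := by positivity
  have c1 : 0 < 2 * σ / lam := by positivity
  have hL0 : 0 < L := by linarith
  have hL1 : 1 ≤ L := by linarith
  have hHu : (H : ℝ) ≤ lam * (L ^ 2 / σ) := by rw [hH]; exact Nat.floor_le (by positivity)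
  have hHl : lam * (L ^ 2 / σ) - 1 ≤ H := by
    have := Nat.lt_floor_add_one (lam * (L ^ 2 / σ))
    rw [hH]
    linarith
  have hLH : L ≤ H := by
    have d1 : 2 * L ≤ lam * (L ^ 2 / σ) := by
      have d2 : 2 * σ / lam * (lam / σ * L) ≤ L * (lam / σ * L) := mul_le_mul_of_nonneg_right (by linarith) (by positivity)
      have d3 : 2 * σ / lam * (lam / σ * L) = 2 * L := by field_simp
      have d4 : L * (lam / σ * L) = lam * (L ^ 2 / σ) := by ring
      linarith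
    linarith
  have hHB : (H : ℝ) ≤ L ^ 3 := by
    refine hHu.trans ?_
    calc lam * (L ^ 2 / σ) = lam / σ * L ^ 2 := by ring
      _ ≤ L * L ^ 2 := mul_le_mul_of_nonneg_right (by linarith) (by positivity)
      _ = L ^ 3 := by ring
  have hHN : H ≤ N := by
    rw [one_mul, Real.rpow_one] at h5
    exact_mod_cast hHB.trans h5
  have hzaL : ((za A N : ℕ) : ℝ) ≤ 2 * A * L := by
    have : ((za A N : ℕ) : ℝ) ≤ zb A N := by exact_mod_cast za_zb hA N (by omega)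
    exact this.trans h2.2
  have k1 := h1 (za A N) H N (2 * N) hzaL hLH hHB (by omega) (by omega)
  have k2 := h1 (zb A N) H N (2 * N) h2.2 hLH hHB (by omega) (by omega)
  rw [← bad_eq] at k1 k2
  have hsub : (Ioc N (2 * N)).filter (fun n => δ < |Q2 A H n - lam|) ⊆
      (Ioc N (2 * N)).filter (fun n => ε * (H * PP (za A N) 2) < |WS (Rq (za A N)) 2 H n - H * PP (za A N) 2|) ∪
      (Ioc N (2 * N)).filter (fun n => ε * (H * PP (zb A N) 2) < |WS (Rq (zb A N)) 2 H n - H * PP (zb A N) 2|) := by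
    intro n hn
    rw [mem_filter] at hn
    rw [mem_union, mem_filter, mem_filter]
    by_contra hcon
    push Not at hcon
    have g1 := hcon.1 hn.1
    have g2 := hcon.2 hn.1
    have hn1 := hn.1
    rw [mem_Ioc] at hn1
    have g3 := Q2_hi' hA ε N n H (by omega) hn1.1 hn1.2 hHN g1
    have g4 := hlo ε N n H h4 hn1.1 hn1.2 hHN g2
    rw [← hLL] at g3 g4
    have g5 : (H : ℝ) / L ^ 2 ≤ lam / σ := by
      rw [div_le_div_iff₀ (by positivity) hσ]
      have : lam * (L ^ 2 / σ) * σ = lam * L ^ 2 := by field_simp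
      nlinarith
    have g6 : lam / σ - 1 / L ^ 2 ≤ (H : ℝ) / L ^ 2 := by
      rw [le_div_iff₀ (by positivity)]
      have : (lam / σ - 1 / L ^ 2) * L ^ 2 = lam * (L ^ 2 / σ) - 1 := by field_simp
      linarith
    have g7 : (1 + ε) * cU A N * (H / L ^ 2) ≤ (1 + ε) * cU A N * (lam / σ) := mul_le_mul_of_nonneg_left g5 (by positivity)
    have hε1 : ε ≤ 1 / 2 := by rw [hε]; exact min_le_left _ _
    have g8 : (1 - ε) * cL A N * (lam / σ - 1 / L ^ 2) ≤ (1 - ε) * cL A N * (H / L ^ 2) :=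
      mul_le_mul_of_nonneg_left g6 (mul_nonneg (by linarith) hcL.le)
    have g9 : |Q2 A H n - lam| ≤ δ := by
      rw [abs_le]
      constructor <;> linarith
    linarith [hn.2]
  have hcard := (card_le_card hsub).trans (card_union_le _ _)
  have hcard' : (((Ioc N (2 * N)).filter (fun n => δ < |Q2 A H n - lam|)).card : ℝ) ≤
      (((Ioc N (2 * N)).filter (fun n => ε * (H * PP (za A N) 2) < |WS (Rq (za A N)) 2 H n - H * PP (za A N) 2|)).card : ℝ) +
      (((Ioc N (2 * N)).filter (fun n => ε * (H * PP (zb A N) 2) < |WS (Rq (zb A N)) 2 H n - H * PP (zb A N) 2|)).card : ℝ) := by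
    exact_mod_cast hcard
  rw [pow_one] at k1 k2
  have h8 : (N : ℝ) / L ≤ δ / 2 * N := by
    rw [div_le_iff₀ hL0]
    rw [div_le_iff₀ hδ] at h7
    nlinarith
  linarith

/-- **the lower bound in almost all windows** -/
theorem few_low {A : ℝ} (hA : 0 < A) (σ : ℝ) (hσ : 0 < σ) (hSG : Tendsto SG atTop (𝓝 σ)) (B K : ℕ) :
    ∀ᶠ N : ℕ in atTop, ∀ H : ℕ, Real.log N ^ 2 / σ ≤ H → (H : ℝ) ≤ Real.log N ^ B →
      (((Ioc N (2 * N)).filter (fun n => Q2 A H n < 1 / 2 * (H / (Real.log N ^ 2 / σ)))).card : ℝ) ≤ N / Real.log N ^ K := by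
  classical
  obtain ⟨a₀, ha₀, hlo⟩ := Q2_lo' hA
  have hL : ∀ᶠ N : ℕ in atTop, 1 / 2 * σ < (1 - 1 / 4) * cL A N := by
    have h1 := (cL_lim hA σ hSG).const_mul (1 - 1 / 4)
    apply h1.eventually_const_lt
    linarith
  filter_upwards [bad_few (2 * A) (by positivity) 2 (dvd_refl 2) (1 / 4) (by norm_num) B K, zb_le hA, hL,
    eventually_ge_atTop a₀, log_pow_small B 1 1 one_pos one_pos, tlog.eventually_ge_atTop (1 + σ)]
    with N h1 h2 hL h4 h5 h6 H hH1 hH2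
  obtain ⟨L, hLL⟩ : ∃ L, L = Real.log (N : ℝ) := ⟨_, rfl⟩
  rw [← hLL] at h1 h2 h5 h6 hH1 hH2 ⊢
  have hL0 : 0 < L := by linarith
  have hLH : L ≤ H := by
    refine le_trans ?_ hH1
    rw [le_div_iff₀ hσ]
    nlinarith
  have hHN : H ≤ N := by
    rw [one_mul, Real.rpow_one] at h5
    exact_mod_cast hH2.trans h5
  have k2 := h1 (zb A N) H N (2 * N) h2.2 hLH hH2 (by omega) (by omega)
  rw [← bad_eq] at k2
  refine le_trans ?_ k2
  have hsub : (Ioc N (2 * N)).filter (fun n => Q2 A H n < 1 / 2 * (H / (L ^ 2 / σ))) ⊆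
      (Ioc N (2 * N)).filter (fun n => 1 / 4 * (H * PP (zb A N) 2) < |WS (Rq (zb A N)) 2 H n - H * PP (zb A N) 2|) := by
    intro n hn
    rw [mem_filter] at hn ⊢
    refine ⟨hn.1, ?_⟩
    by_contra hcon
    push Not at hcon
    have hn1 := hn.1
    rw [mem_Ioc] at hn1
    have g4 := hlo (1 / 4) N n H h4 hn1.1 hn1.2 hHN hcon
    rw [← hLL] at g4
    have g5 : 1 / 2 * σ * ((H : ℝ) / L ^ 2) ≤ (1 - 1 / 4) * cL A N * (H / L ^ 2) := mul_le_mul_of_nonneg_right hL.le (by positivity)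
    have g6 : 1 / 2 * ((H : ℝ) / (L ^ 2 / σ)) = 1 / 2 * σ * ((H : ℝ) / L ^ 2) := by field_simp
    linarith [hn.2]
  exact_mod_cast card_le_card hsub

end Pool.Agent.T2H62.MT
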