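import Pool.Agent.T2H62.MT.D
import Pool.Agent.TH892.SW.S2

set_option autoImplicit false

/-! # Twins in all windows of polylogarithmic length -/

namespace Pool.Agent.T2H62.MT

open Finset Filter Topology MeasureTheory ProbabilityTheory
open Pool.Agent.T2H62.MD
open Pool.Agent.T2H53.GW
open Pool.Agent.T2H62.MM (tlog GG_pos VV_tendsto')
open Pool.Agent.T2H62.MG (ind ind_pos ind_neg ind_bd WS Rq za zb za_zb zb_le PP_low)
open Pool.Agent.T2H62.ME (PP PP_nonneg nu_pair V1 V1_VV Em mem_Em)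
open Pool.Agent.H305R2 (VV)

theorem VV_le_self : ∀ᶠ z : ℕ in atTop, VV z ≤ z := by
  have hG := GG_pos
  filter_upwards [VV_tendsto'.eventually_lt_const (show GG < 2 * GG by linarith), log_pow_small 1 (2 * GG) 1 one_pos (by positivity),
    eventually_ge_atTop 2] with z h1 h2 h3
  have hl : 0 < Real.log (z : ℝ) := Real.log_pos (by exact_mod_cast (by omega : 1 < z))
  rw [div_lt_iff₀ hl] at h1
  rw [pow_one, Real.rpow_one] at h2
  linarith

theorem PP2_low : ∀ᶠ z : ℕ in atTop, ((z : ℝ) ^ 3)⁻¹ ≤ PP z 2 := by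
  filter_upwards [VV_le_self, eventually_ge_atTop 1] with z h1 h2
  have hz0 : (0 : ℝ) < z := by exact_mod_cast h2
  have hV : 0 < VV z := by linarith [one_le_VV z]
  refine le_trans ?_ (PP_low z 2 (dvd_refl 2))
  have h3 : V1 z = (VV z)⁻¹ := eq_inv_of_mul_eq_one_right (V1_VV z)
  rw [h3, ← inv_pow]
  apply pow_le_pow_left₀ (by positivity)
  exact inv_anti₀ hV h1

theorem JJ_le_self (y : ℕ) : Pool.Agent.W41.JJ y ≤ y + 1 := by
  unfold Pool.Agent.W41.JJ
  have h1 : Nat.log 2 (Nat.log 2 y) ≤ Nat.log 2 y := Nat.log_le_self _ _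
  have h2 : Nat.log 2 y ≤ y := Nat.log_le_self _ _
  omega

/-- **the lower bound in all windows** -/
theorem win_low : ∃ C z₀ : ℕ, 1 ≤ C ∧ 2 ≤ z₀ ∧ ∀ z X n : ℕ, z₀ ≤ z → z ^ C ≤ X → 1 / 4 * ((X : ℝ) * PP z 2) ≤ WS (Rq z) 2 X n := by
  classical
  obtain ⟨C0, K0, hC0, hK0, hfl⟩ := Pool.Agent.TH892.SW.fl_set 2
  obtain ⟨z₁, hz₁⟩ := eventually_atTop.1 PP2_low
  obtain ⟨b, hb⟩ : ∃ b, b = C0 + 1 := ⟨_, rfl⟩
  obtain ⟨e, he⟩ : ∃ e, e = 2 * (C0 * b) := ⟨_, rfl⟩
  refine ⟨2 * e + 7, z₁ + K0 + 4, by omega, by omega, fun z X n hz hX => ?_⟩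
  have hz4 : 4 ≤ z := by omega
  have hz0 : (0 : ℝ) < z := by exact_mod_cast (by omega : 0 < z)
  obtain ⟨Rp, hRp⟩ : ∃ Rp : ℕ → ℕ → Prop, ∀ p a, Rp p a ↔ a ∈ XX {n, n + 2} p := ⟨fun p a => a ∈ XX {n, n + 2} p, fun _ _ => Iff.rfl⟩
  have hcd : ∀ p : ℕ, p.Prime → ((range p).filter (fun a => Rp p a)).card = nu {n, n + 2} p := by
    intro p hpp
    have g1 : (range p).filter (fun a => Rp p a) = XX {n, n + 2} p := by
      ext a
      rw [mem_filter, hRp]
      exact ⟨fun h => h.2, fun h => ⟨XX_sub _ hpp.pos h, h⟩⟩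
    rw [g1, XX_card _ hpp.pos]
  have h1 := hfl b (by omega) z (by omega) X (PJ z) Rp (by
    intro p hp
    have hpp := PJ_prime hp
    refine ⟨hpp, ?_, ?_⟩
    · unfold PJ at hp
      rw [mem_filter, mem_Icc] at hp
      exact hp.1.2
    · rw [hcd p hpp]
      unfold nu
      exact card_image_le.trans card_le_two)
  have h2 : ∏ p ∈ PJ z, (1 - (((range p).filter (fun a => Rp p a)).card : ℝ) / p) = PP z 2 := by
    unfold PP
    refine prod_congr rfl fun p hp => ?_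
    rw [hcd p (PJ_prime hp), nu_pair n 2 p]
  have h3 : (((Icc 1 X).filter (fun i => ∀ p ∈ PJ z, ¬ Rp p (i % p))).card : ℝ) = WS (Rq z) 2 X n := by
    unfold WS
    rw [card_filter]
    push_cast
    refine sum_congr rfl fun i _ => ?_
    have h4 : (∀ p ∈ PJ z, ¬ Rp p (i % p)) ↔ (Rq z (n + i) ∧ Rq z (n + i + 2)) := by
      simp only [hRp]
      unfold Rq
      constructor
      · intro h5
        refine ⟨fun p hp => ?_, fun p hp => ?_⟩
        · have := (XX_iff {n, n + 2} (PJ_prime hp).pos i).1 (h5 p hp) n (by simp)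
          rwa [add_comm] at this
        · have := (XX_iff {n, n + 2} (PJ_prime hp).pos i).1 (h5 p hp) (n + 2) (by simp)
          have e1 : i + (n + 2) = n + i + 2 := by ring
          rwa [e1] at this
      · rintro ⟨h5, h6⟩ p hp
        refine (XX_iff {n, n + 2} (PJ_prime hp).pos i).2 ?_
        intro t ht
        rw [mem_insert, mem_singleton] at ht
        rcases ht with rfl | rfl
        · rw [add_comm]
          exact h5 p hp
        · have e1 : i + (n + 2) = n + i + 2 := by ring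
          rw [e1]
          exact h6 p hp
    by_cases h5 : Rq z (n + i) ∧ Rq z (n + i + 2)
    · rw [if_pos (h4.2 h5), ind_pos h5.1, ind_pos h5.2, mul_one]
    · rw [if_neg (fun h6 => h5 (h4.1 h6))]
      by_cases h6 : Rq z (n + i)
      · rw [ind_neg (fun h7 => h5 ⟨h6, h7⟩), mul_zero]
      · rw [ind_neg h6, zero_mul]
  rw [h2, h3, ← he] at h1
  have h5 := (abs_le.1 h1).1
  have hPP := hz₁ z (by omega)
  have hPP0 := PP_nonneg z 2
  -- the error term
  have h6 : ((Pool.Agent.W41.JJ z : ℝ) + 2) * ((z : ℝ) ^ e * (K0 * (z : ℝ) ^ e)) ≤ (z : ℝ) ^ (2 * e + 3) := by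
    have c1 : ((Pool.Agent.W41.JJ z : ℝ) + 2) ≤ (z : ℝ) ^ 2 := by
      have d1 : Pool.Agent.W41.JJ z + 2 ≤ z ^ 2 := by
        have := JJ_le_self z
        nlinarith
      exact_mod_cast d1
    have c2 : (K0 : ℝ) ≤ z := by exact_mod_cast (by omega : K0 ≤ z)
    calc ((Pool.Agent.W41.JJ z : ℝ) + 2) * ((z : ℝ) ^ e * (K0 * (z : ℝ) ^ e)) ≤ (z : ℝ) ^ 2 * ((z : ℝ) ^ e * (z * (z : ℝ) ^ e)) := by
          apply mul_le_mul c1 _ (by positivity) (by positivity)
          apply mul_le_mul_of_nonneg_left _ (by positivity)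
          exact mul_le_mul_of_nonneg_right c2 (by positivity)
      _ = (z : ℝ) ^ (2 * e + 3) := by ring
  have h7 : (z : ℝ) ^ (2 * e + 3) ≤ 1 / 4 * ((X : ℝ) * PP z 2) := by
    have c1 : (z : ℝ) ^ (2 * e + 7) ≤ X := by exact_mod_cast hX
    have c2 : (4 : ℝ) ≤ z := by exact_mod_cast hz4
    have c3 : (z : ℝ) ^ (2 * e + 7) * ((z : ℝ) ^ 3)⁻¹ ≤ X * PP z 2 := mul_le_mul c1 hPP (by positivity) (by positivity)
    have c4 : (z : ℝ) ^ (2 * e + 7) * ((z : ℝ) ^ 3)⁻¹ = z * (z : ℝ) ^ (2 * e + 3) := by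
      field_simp
      ring
    have c5 : 4 * (z : ℝ) ^ (2 * e + 3) ≤ z * (z : ℝ) ^ (2 * e + 3) := mul_le_mul_of_nonneg_right c2 (by positivity)
    linarith
  have h8 : (1 / 2 : ℝ) ^ b * ((X : ℝ) * PP z 2) ≤ 1 / 2 * (X * PP z 2) := by
    apply mul_le_mul_of_nonneg_right _ (by positivity)
    calc (1 / 2 : ℝ) ^ b ≤ (1 / 2) ^ 1 := pow_le_pow_of_le_one (by norm_num) (by norm_num) (by omega)
      _ = 1 / 2 := pow_one _
  linarith

variable {Ω : Type*} [MeasurableSpace Ω] {μ : Measure Ω} [IsProbabilityMeasure μ] {S : ℕ → Set Ω}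

/-- **twins in all windows of polylogarithmic length** -/
theorem twin_gap {A : ℝ} (hA : 0 < A) (hm : ∀ n, MeasurableSet (S n)) (hi : iIndepSet S μ) (hp : ∀ n, μ.real (S n) = pr A n) :
    ∃ C : ℕ, ∀ᵐ ω ∂μ, ∀ᶠ N : ℕ in atTop, ∃ n ∈ Ioc N (N + ⌊Real.log N ^ C⌋₊), ω ∈ Tw S n := by
  classical
  obtain ⟨C1, z₀, hC1, hz₀, hwin⟩ := win_low
  obtain ⟨σ, hσ, hSG⟩ := SG_lim
  obtain ⟨C, hC⟩ : ∃ C, C = C1 + 4 := ⟨_, rfl⟩
  refine ⟨C, ?_⟩
  obtain ⟨a₀, ha₀, hlo⟩ := Q2_lo hA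
  obtain ⟨Bd, hBd⟩ : ∃ Bd : ℕ → Set Ω, Bd = fun N : ℕ => Em (Tw S) ⌊Real.log (N : ℝ) ^ C⌋₊ N := ⟨_, rfl⟩
  have hcL : ∀ᶠ N : ℕ in atTop, σ / 2 < cL A N := (cL_lim hA σ hSG).eventually_const_lt (by linarith)
  have hsh : Tendsto (fun n : ℕ => n - 1) atTop atTop := tendsto_sub_atTop_nat 1
  have hprob : ∀ᶠ n : ℕ in atTop, μ.real (Bd n) ≤ 1 / (n : ℝ) ^ 2 := by
    filter_upwards [eventually_forall_ge_atTop.2 (Tw_prob hA hm hi hp), hsh.eventually hcL, hsh.eventually (zb_le hA),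
      hsh.eventually ((zb_tendsto hA).eventually_ge_atTop z₀), eventually_ge_atTop (a₀ + 4), log_pow_small C 2 1 one_pos (by norm_num),
      tlog.eventually_ge_atTop ((2 * A) ^ C1 + 16 / σ + 2)]
      with n h1 h2 h3 h4 h5 h6 h7
    obtain ⟨N, hN⟩ : ∃ N, N = n - 1 := ⟨_, rfl⟩
    rw [← hN] at h2 h3 h4
    obtain ⟨L, hL⟩ : ∃ L, L = Real.log (n : ℝ) := ⟨_, rfl⟩
    rw [← hL] at h6 h7
    obtain ⟨H, hH⟩ : ∃ H, H = ⌊L ^ C⌋₊ := ⟨_, rfl⟩
    have hBn : Bd n = Em (Tw S) H n := by rw [hBd, hH, hL]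
    have hn0 : (0 : ℝ) < n := by exact_mod_cast (by omega : 0 < n)
    have hA1 : 0 < (2 * A) ^ C1 := by positivity
    have hσ1 : 0 < 16 / σ := by positivity
    have hL2 : 2 ≤ L := by linarith
    have hHu : (H : ℝ) ≤ L ^ C := by rw [hH]; exact Nat.floor_le (by positivity)
    have hHl : L ^ C - 1 ≤ H := by
      have := Nat.lt_floor_add_one (L ^ C)
      rw [hH]
      linarith
    have hN0 : (0 : ℝ) < N := by exact_mod_cast (by omega : 0 < N)
    have hLN : Real.log (N : ℝ) ≤ L := by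
      rw [hL]
      exact Real.log_le_log hN0 (by exact_mod_cast (by omega : N ≤ n))
    have hLN0 : 0 < Real.log (N : ℝ) := Real.log_pos (by exact_mod_cast (by omega : 1 < N))
    have hHn : 2 * H ≤ n := by
      rw [Real.rpow_one] at h6
      have : 2 * (H : ℝ) ≤ n := by linarith
      exact_mod_cast this
    have hHN : H ≤ N := by omega
    -- the window is long enough
    have hLC : L ^ C = L ^ C1 * L ^ 4 := by rw [hC, pow_add]
    have hL4 : 2 * L ^ 3 ≤ L ^ 4 := by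
      have : (0 : ℝ) ≤ L ^ 3 := by positivity
      nlinarith
    have hLC1 : 1 ≤ L ^ C1 := one_le_pow₀ (by linarith)
    have hzC : (zb A N) ^ C1 ≤ H := by
      have c1 : ((zb A N : ℕ) : ℝ) ≤ 2 * A * L := h3.2.trans (mul_le_mul_of_nonneg_left hLN (by positivity))
      have c2 : ((zb A N : ℕ) : ℝ) ^ C1 ≤ (2 * A) ^ C1 * L ^ C1 := by
        rw [← mul_pow]
        exact pow_le_pow_left₀ (Nat.cast_nonneg _) c1 _
      have c3 : (2 * A) ^ C1 * L ^ C1 ≤ L * L ^ C1 := mul_le_mul_of_nonneg_right (by linarith) (by positivity)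
      have c4 : L * L ^ C1 + 1 ≤ L ^ C := by
        rw [hLC]
        have d1 : L + 1 ≤ L ^ 4 := by
          have : 4 ≤ L ^ 2 := by nlinarith
          nlinarith
        nlinarith
      have c5 : ((zb A N : ℕ) : ℝ) ^ C1 ≤ H := by linarith
      exact_mod_cast c5
    have g1 := hwin (zb A N) H n h4 hzC
    have g3 : 1 / 4 * cL A N * (H / Real.log N ^ 2) ≤ Q2 A H n := by
      refine le_trans (le_of_eq ?_) ((mul_le_mul_of_nonneg_left g1 (show 0 ≤ (VV (za A N) / Real.log (4 * N)) ^ 2 by positivity)).trans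
        (hlo N n H (by omega) (by omega) (by omega) hHN))
      have hVa : 0 < VV (za A N) := by linarith [one_le_VV (za A N)]
      have hVb : 0 < VV (zb A N) := by linarith [one_le_VV (zb A N)]
      have hl4 : 0 < Real.log (4 * (N : ℝ)) := Real.log_pos (by
        have : (1 : ℝ) ≤ N := by exact_mod_cast (by omega : 1 ≤ N)
        linarith)
      unfold cL SG
      field_simp
    have g4 : 2 * L ≤ Q2 A H n := by
      refine le_trans ?_ g3
      have c1 : (H : ℝ) / L ^ 2 ≤ H / Real.log N ^ 2 := by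
        apply div_le_div_of_nonneg_left (Nat.cast_nonneg _) (by positivity)
        exact pow_le_pow_left₀ hLN0.le hLN 2
      have c2 : 16 / σ * L ^ 3 ≤ H := by
        have d1 : L ^ 4 ≤ L ^ C := by
          rw [hLC]
          exact le_mul_of_one_le_left (by positivity) hLC1
        have d2 : (1 : ℝ) ≤ L ^ 3 := one_le_pow₀ (by linarith)
        have d3 : (16 / σ + 2) * L ^ 3 ≤ L * L ^ 3 := mul_le_mul_of_nonneg_right (by linarith) (by positivity)
        have d4 : L * L ^ 3 = L ^ 4 := by ring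
        linarith
      have c3 : 16 / σ * L ≤ (H : ℝ) / L ^ 2 := by
        rw [le_div_iff₀ (by positivity)]
        linarith [show 16 / σ * L * L ^ 2 = 16 / σ * L ^ 3 by ring]
      calc 2 * L = 1 / 4 * (σ / 2) * (16 / σ * L) := by field_simp; norm_num
        _ ≤ 1 / 4 * cL A N * (H / Real.log N ^ 2) := by
            apply mul_le_mul _ (c3.trans c1) (by positivity) (by linarith)
            linarith
    have g5 : μ.real (Em (Tw S) H n) ≤ Real.exp (-(Q2 A H n)) := by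
      rw [prob_Em_s (Tw_meas hm) (Tw_indep hm hi)]
      unfold Q2
      rw [← sum_neg_distrib, Real.exp_sum]
      apply Finset.prod_le_prod
      · intro i _
        have := measureReal_le_one (μ := μ) (s := Tw S (n + i))
        linarith
      · intro i _
        rw [h1 (n + i) (by omega)]
        have := Real.add_one_le_exp (-(pr A (n + i) * pr A (n + i + 2)))
        linarith
    rw [hBn]
    refine g5.trans ((Real.exp_le_exp.2 (show -(Q2 A H n) ≤ -(2 * L) by linarith)).trans (le_of_eq ?_))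
    rw [hL, Real.exp_neg, one_div, mul_comm, Real.exp_mul, Real.exp_log hn0]
    norm_num
  obtain ⟨n₀, hn₀⟩ := eventually_atTop.1 hprob
  have hsum : Summable (fun N : ℕ => 1 / (N : ℝ) ^ 2) := Real.summable_one_div_nat_pow.2 (by norm_num)
  have h2 := bc (μ := μ) Bd n₀ _ hsum (fun n hn => hn₀ n hn)
  filter_upwards [h2] with ω hω
  filter_upwards [hω] with N hN
  rw [hBd] at hN
  have h3 : ¬ (∀ h ∈ Icc 1 ⌊Real.log (N : ℝ) ^ C⌋₊, ω ∉ Tw S (N + h)) := fun h => hN ((mem_Em _ _ _ _).2 h)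
  push Not at h3
  obtain ⟨h, hh, h4⟩ := h3
  rw [mem_Icc] at hh
  exact ⟨N + h, by rw [mem_Ioc]; omega, h4⟩

end Pool.Agent.T2H62.MT
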